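import Pool.Agent.Helper10_BAN.Stmt

set_option autoImplicit false

/-!
# Affine version (S13205): statements with nonsymmetric gauges and a shift (squad BAN, helper68)

Everything is over `ℝ`. `Φ ν` is the gauge of `B - b ν`; the shift `b ν` is the centroid of the
section `B ∩ ν^⊥`.
-/

namespace Pool.Agent.BAN

open MeasureTheory Filter Topology Set
open scoped NNReal

section Defs2

/-- A (nonsymmetric) gauge. -/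
structure Gau {V : Type} [NormedAddCommGroup V] [NormedSpace ℝ V] (φ : V → ℝ) : Prop where
  sub : ∀ x y, φ (x + y) ≤ φ x + φ y
  hom : ∀ (t : ℝ) (x : V), 0 ≤ t → φ (t • x) = t * φ x
  pos : ∀ x, x ≠ 0 → 0 < φ x

variable {V X : Type} [NormedAddCommGroup V] [InnerProductSpace ℝ V]
  [NormedAddCommGroup X] [InnerProductSpace ℝ X]

/-- The linear symmetries of `φ`. -/
def SymR (φ : V → ℝ) : Set (V →L[ℝ] V) := {g | ∀ v, φ (g v) = φ v}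

/-- The isometric embeddings of `(V, φ)` into `(X, Φ ν)` with image orthogonal to `ν`. -/
def PR (φ : V → ℝ) (Φ : X → X → ℝ) (ν : X) : Set (V →L[ℝ] X) :=
  {A | (∀ v, Φ ν (A v) = φ v) ∧ ∀ v, inner ℝ ν (A v) = 0}

/-- The standing assumptions of the geometric part (`Φ ν` is a Lipschitz family of gauges). -/
structure DatR (φ : V → ℝ) (Φ : X → X → ℝ) : Prop where
  dim : Module.finrank ℝ X = Module.finrank ℝ V + 1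
  gv : Gau φ
  gx : ∀ ν : X, ‖ν‖ = 1 → Gau (Φ ν)
  lip : ∃ L : ℝ, 0 ≤ L ∧ ∀ ν ν' : X, ‖ν‖ = 1 → ‖ν'‖ = 1 → ∀ x : X,
    |Φ ν x - Φ ν' x| ≤ L * ‖ν - ν'‖ * ‖x‖
  iso : ∀ g : V →L[ℝ] V, (∀ v, φ (g v) = φ v) → ∀ v, ‖g v‖ = ‖v‖
  non : ∀ ν : X, ‖ν‖ = 1 → ∃ A : V →L[ℝ] X, A ∈ PR φ Φ ν

end Defs2

/-! ## Part G, gauge versions -/

/-- EB2: error bound for the symmetry group of a gauge. Uses PL. -/
def EB2Stmt : Prop :=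
  ∀ (V : Type) [NormedAddCommGroup V] [InnerProductSpace ℝ V]
    [FiniteDimensional ℝ V] (φ : V → ℝ), Gau φ →
    (∀ g : V →L[ℝ] V, (∀ v, φ (g v) = φ v) → ∀ v, ‖g v‖ = ‖v‖) →
    ∀ R : ℝ, ∃ C : ℝ, 0 ≤ C ∧ ∀ (g : V →L[ℝ] V) (δ : ℝ), ‖g‖ ≤ R → 0 ≤ δ →
      (∀ v, |φ (g v) - φ v| ≤ δ * ‖v‖) → ∃ κ ∈ SymR φ, ‖g - κ‖ ≤ C * δ

/-- BAS2: basic facts. -/
def BAS2Stmt : Prop :=
  ∀ (V X : Type) [NormedAddCommGroup V] [InnerProductSpace ℝ V]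
    [FiniteDimensional ℝ V] [NormedAddCommGroup X] [InnerProductSpace ℝ X]
    [FiniteDimensional ℝ X] (φ : V → ℝ) (Φ : X → X → ℝ), DatR φ Φ →
    CGrp (𝕜 := ℝ) (SymR φ) ∧
    ∃ c C : ℝ, 0 < c ∧ 0 < C ∧ (∀ v, c * ‖v‖ ≤ φ v ∧ φ v ≤ C * ‖v‖) ∧
      (∀ ν : X, ‖ν‖ = 1 → ∀ x, c * ‖x‖ ≤ Φ ν x ∧ Φ ν x ≤ C * ‖x‖) ∧
      (∀ (ν : X) (A : V →L[ℝ] X), ‖ν‖ = 1 → A ∈ PR φ Φ ν → (∀ v, c * ‖v‖ ≤ ‖A v‖) ∧ ‖A‖ ≤ C) ∧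
      (∀ (ν : X) (A : V →L[ℝ] X), ‖ν‖ = 1 → A ∈ PR φ Φ ν →
        ∀ x, inner ℝ ν x = 0 → ∃ v, A v = x)

/-- NEAR2: for `A ∈ P_ν`, `A' ∈ P_ν'` the endomorphism `A'⁺ A` is `C|ν-ν'|`-close to `K`.
Uses EB2, BAS2. -/
def NEAR2Stmt : Prop :=
  ∀ (V X : Type) [NormedAddCommGroup V] [InnerProductSpace ℝ V]
    [FiniteDimensional ℝ V] [NormedAddCommGroup X] [InnerProductSpace ℝ X]
    [FiniteDimensional ℝ X] (φ : V → ℝ) (Φ : X → X → ℝ), DatR φ Φ →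
    ∀ (L : ℝ) (R : (V →L[ℝ] X) → (X →L[ℝ] V)),
      (∀ (ν : X) (A : V →L[ℝ] X), ‖ν‖ = 1 → A ∈ PR φ Φ ν →
        (∀ v, R A (A v) = v) ∧ (∀ x, (∀ v, inner ℝ (A v) x = 0) → R A x = 0) ∧ ‖R A‖ ≤ L) →
      ∃ C : ℝ, 0 ≤ C ∧
        (∀ (ν ν' : X) (A A' : V →L[ℝ] X), ‖ν‖ = 1 → ‖ν'‖ = 1 → A ∈ PR φ Φ ν → A' ∈ PR φ Φ ν' →
          ∃ κ ∈ SymR φ, ‖(R A').comp A - κ‖ ≤ C * ‖ν - ν'‖ ∧
            ‖A - A'.comp κ‖ ≤ C * ‖ν - ν'‖ ∧ A'.comp κ ∈ PR φ Φ ν')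

/-- TR2: Lipschitz transport. Uses NP, EB2, BAS2, PINV, NEAR2. -/
def TR2Stmt : Prop :=
  ∀ (V X : Type) [NormedAddCommGroup V] [InnerProductSpace ℝ V]
    [FiniteDimensional ℝ V] [NormedAddCommGroup X] [InnerProductSpace ℝ X]
    [FiniteDimensional ℝ X] (φ : V → ℝ) (Φ : X → X → ℝ), DatR φ Φ →
    ∃ (ρ L : ℝ) (T : X → (V →L[ℝ] X) → (V →L[ℝ] X)), 0 < ρ ∧ 0 ≤ L ∧
      (∀ ν ν' : X, ‖ν‖ = 1 → ‖ν'‖ = 1 → ‖ν - ν'‖ ≤ ρ → ∀ A ∈ PR φ Φ ν, T ν' A ∈ PR φ Φ ν') ∧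
      (∀ ν₁ ν₁' ν₂ ν₂' : X, ‖ν₁‖ = 1 → ‖ν₁'‖ = 1 → ‖ν₂‖ = 1 → ‖ν₂'‖ = 1 →
        ‖ν₁ - ν₁'‖ ≤ ρ → ‖ν₂ - ν₂'‖ ≤ ρ → ∀ A₁ ∈ PR φ Φ ν₁, ∀ A₂ ∈ PR φ Φ ν₂,
          ‖T ν₁' A₁ - T ν₂' A₂‖ ≤ L * (‖ν₁' - ν₂'‖ + ‖A₁ - A₂‖))

/-- SEC2: Lipschitz sections over bounded star-shaped sets. Uses TR2, BAS2. -/
def SEC2Stmt : Prop :=
  ∀ (V X : Type) [NormedAddCommGroup V] [InnerProductSpace ℝ V]
    [FiniteDimensional ℝ V] [NormedAddCommGroup X] [InnerProductSpace ℝ X]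
    [FiniteDimensional ℝ X] (φ : V → ℝ) (Φ : X → X → ℝ), DatR φ Φ →
    ∀ (Y : Type) [NormedAddCommGroup Y] [NormedSpace ℝ Y] (D : Set Y) (R l : ℝ) (ν : Y → X),
      (∀ y ∈ D, ∀ t : ℝ, 0 ≤ t → t ≤ 1 → t • y ∈ D) → (∀ y ∈ D, ‖y‖ ≤ R) →
      (∀ y ∈ D, ‖ν y‖ = 1) → (∀ y ∈ D, ∀ z ∈ D, ‖ν y - ν z‖ ≤ l * ‖y - z‖) →
      ∃ (s : Y → (V →L[ℝ] X)) (L : ℝ), 0 ≤ L ∧ (∀ y ∈ D, s y ∈ PR φ Φ (ν y)) ∧
        (∀ y ∈ D, ∀ z ∈ D, ‖s y - s z‖ ≤ L * ‖y - z‖)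

/-- CAP2: the image of the cap is null. Uses ORB, BAS2. -/
def CAP2Stmt : Prop :=
  ∀ (V X : Type) [NormedAddCommGroup V] [InnerProductSpace ℝ V]
    [FiniteDimensional ℝ V] [NormedAddCommGroup X] [InnerProductSpace ℝ X]
    [FiniteDimensional ℝ X] [MeasurableSpace X] [BorelSpace X] (μ : Measure X)
    [μ.IsAddHaarMeasure] (φ : V → ℝ) (Φ : X → X → ℝ), DatR φ Φ →
    ∀ (e b0 : X) (v : V), ‖e‖ = 1 → inner ℝ e b0 = 0 → v ≠ 0 →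
      (∃ u : V, ∀ t : ℝ, ∀ κ ∈ SymR φ, u ≠ t • κ v) →
      μ {x | ∃ r t : ℝ, 0 ≤ t ∧ ∃ A ∈ PR φ Φ (-e), x = r • e + t • (A v + b0)} = 0

/-- INVIP2: an inner product invariant under all linear symmetries of a gauge. -/
def INVIP2Stmt : Prop :=
  ∀ (V : Type) [NormedAddCommGroup V] [InnerProductSpace ℝ V]
    [FiniteDimensional ℝ V] (φ : V → ℝ), Gau φ →
    ∃ T : V ≃L[ℝ] V, ∀ g : V →L[ℝ] V, (∀ v, φ (T (g v)) = φ (T v)) → ∀ v, ‖g v‖ = ‖v‖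

/-! ## Lipschitz centre -/

/-- CENV: the centroid of a convex body is a Lipschitz affine invariant. -/
def CENVStmt : Prop :=
  ∀ (V : Type) [NormedAddCommGroup V] [InnerProductSpace ℝ V] [FiniteDimensional ℝ V]
    (K : Set V), Convex ℝ K → IsCompact K → (interior K).Nonempty →
    ∃ (c0 : V) (C : ℝ), c0 ∈ interior K ∧ 0 ≤ C ∧
      ∀ (M : V →ᵃ[ℝ] V) (p : V) (ε : ℝ), p ∈ K → 0 ≤ ε → ε ≤ 1 / 2 →
        (AffineMap.homothety p (1 - ε) '' K ⊆ M '' K) →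
        (M '' K ⊆ AffineMap.homothety p (1 + ε) '' K) → ‖M c0 - c0‖ ≤ C * ε

/-- BODY: from a convex body with affinely equivalent central sections to the standing data.
Uses CENV. -/
def BODYStmt : Prop :=
  ∀ (k : ℕ), 2 ≤ k → ∀ B : Set (EuclideanSpace ℝ (Fin (k + 1))),
    Convex ℝ B → IsCompact B → (0 : EuclideanSpace ℝ (Fin (k + 1))) ∈ interior B →
    (∀ H₁ H₂ : Submodule ℝ (EuclideanSpace ℝ (Fin (k + 1))),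
      Module.finrank ℝ H₁ = k → Module.finrank ℝ H₂ = k →
      ∃ f : EuclideanSpace ℝ (Fin (k + 1)) ≃ᵃ[ℝ] EuclideanSpace ℝ (Fin (k + 1)),
        f '' (B ∩ (H₁ : Set (EuclideanSpace ℝ (Fin (k + 1))))) =
          B ∩ (H₂ : Set (EuclideanSpace ℝ (Fin (k + 1))))) →
    ∃ (φ : EuclideanSpace ℝ (Fin k) → ℝ)
      (b : EuclideanSpace ℝ (Fin (k + 1)) → EuclideanSpace ℝ (Fin (k + 1))) (L β : ℝ),
      Gau φ ∧ 0 ≤ L ∧ β < 1 ∧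
      (∀ ν ν', ‖ν‖ = 1 → ‖ν'‖ = 1 → ‖b ν - b ν'‖ ≤ L * ‖ν - ν'‖) ∧
      (∀ ν, ‖ν‖ = 1 → inner ℝ ν (b ν) = 0 ∧ gauge B (b ν) ≤ β) ∧
      (∀ ν, ‖ν‖ = 1 → ∃ A : EuclideanSpace ℝ (Fin k) →L[ℝ] EuclideanSpace ℝ (Fin (k + 1)),
        (∀ v, inner ℝ ν (A v) = 0) ∧ ∀ v, gauge ((fun x => x - b ν) '' B) (A v) = φ v)

/-- GAUF: elementary facts about the gauges of the translates `B - b`. -/
def GAUFStmt : Prop :=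
  ∀ (X : Type) [NormedAddCommGroup X] [InnerProductSpace ℝ X] [FiniteDimensional ℝ X]
    (B : Set X), Convex ℝ B → IsCompact B → (0 : X) ∈ interior B →
    Gau (gauge B) ∧ (∀ x, gauge B x ≤ 1 ↔ x ∈ B) ∧ ∀ β : ℝ, β < 1 → ∃ L : ℝ, 0 ≤ L ∧
      (∀ b, gauge B b ≤ β → Gau (gauge ((fun x => x - b) '' B)) ∧
        ∀ y, gauge ((fun x => x - b) '' B) y ≤ 1 ↔ gauge B (b + y) ≤ 1) ∧
      (∀ b b', gauge B b ≤ β → gauge B b' ≤ β → ∀ x,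
        |gauge ((fun x => x - b) '' B) x - gauge ((fun x => x - b') '' B) x|
          ≤ L * ‖b - b'‖ * ‖x‖)

/-! ## Analysis -/

/-- The cut-off: positive exactly on `(1/2, 1)`. -/
noncomputable def cut (r : ℝ) : ℝ := max 0 ((r - 1 / 2) * (1 - r))

/-- ANA2: the analytic theorem, affine version. Uses LIM, NR, RE, helper41's `alg`. -/
def ANA2Stmt : Prop :=
  ∀ (n : ℕ) (g : EuclideanSpace ℝ (Fin (n + 1)) → ℝ) (f : ℝ → ℝ → ℝ)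
    (A B C Q : EuclideanSpace ℝ (Fin (n + 1)) → EuclideanSpace ℝ (Fin (n + 1)))
    (w : EuclideanSpace ℝ (Fin (n + 1)) → ℝ) (L : ℝ≥0) (c β : ℝ)
    (S : Set (EuclideanSpace ℝ (Fin (n + 1)))),
    0 < c → β < 1 → Gau g →
    (∀ p q : ℝ, (p ≠ 0 ∨ q ≠ 0) → 0 < f p q) →
    (∀ t p q : ℝ, 0 ≤ t → f (t * p) (t * q) = t * f p q) →
    (∀ p q p' q' : ℝ, f (p + p') (q + q') ≤ f p q + f p' q') →
    LipschitzWith L A → LipschitzWith L B → LipschitzWith L C → LipschitzWith L Q →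
    A 0 = 0 → B 0 = 0 → C 0 = 0 → Q 0 = 0 →
    (∀ x, inner ℝ (Q x) (A x) = 0) → (∀ x, inner ℝ (Q x) (B x) = 0) →
    (∀ x, inner ℝ (Q x) (C x) = 0) →
    (∀ x, c * ‖x‖ ^ 2 ≤ inner ℝ x (Q x)) → Continuous w → (∀ x, 0 ≤ w x) → MeasurableSet S →
    (∀ x ∈ S, c * ‖x‖ ≤ w x) →
    (∀ (x : EuclideanSpace ℝ (Fin (n + 1))) (p q : ℝ), f p q ≤ 1 →
      g (p • A x + q • B x + C x) ≤ w x * (f p q + (1 - f p q) * β)) →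
    (∀ (x : EuclideanSpace ℝ (Fin (n + 1))) (p q : ℝ), 1 ≤ f p q →
      w x * (f p q + (1 - f p q) * β) ≤ g (p • A x + q • B x + C x)) →
    (∀ ε p q : ℝ, 0 < ε → f p q = 1 →
      (volume : Measure (EuclideanSpace ℝ (Fin (n + 1))))
        ((fun x => ε • Q x + (p • A x + q • B x + C x)) '' Sᶜ) = 0) →
    ∃ P R : Polynomial ℝ, ∀ t : ℝ,
      f 1 t - f (-1) (-t) = P.eval t ∧ f 1 t * f (-1) (-t) = R.eval t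

/-! ## Final part -/

/-- MAINA: polynomiality along lines for the model gauge, `K` already orthogonal.
Uses ANA2, SEC2, MAPA, MAPB, MAPC, CAP2, BAS2. -/
def MAINAStmt : Prop :=
  ∀ (k : ℕ), 2 ≤ k → ∀ (g : EuclideanSpace ℝ (Fin (k + 1)) → ℝ) (φ : EuclideanSpace ℝ (Fin k) → ℝ)
    (Φ : EuclideanSpace ℝ (Fin (k + 1)) → EuclideanSpace ℝ (Fin (k + 1)) → ℝ)
    (b : EuclideanSpace ℝ (Fin (k + 1)) → EuclideanSpace ℝ (Fin (k + 1))) (L β : ℝ),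
    DatR φ Φ → Gau g → β < 1 →
    (∀ ν ν', ‖ν‖ = 1 → ‖ν'‖ = 1 → ‖b ν - b ν'‖ ≤ L * ‖ν - ν'‖) →
    (∀ ν, ‖ν‖ = 1 → inner ℝ ν (b ν) = 0 ∧ g (b ν) ≤ β ∧
      ∀ y, (Φ ν y ≤ 1 ↔ g (b ν + y) ≤ 1)) →
    ∀ a d : EuclideanSpace ℝ (Fin k), LinearIndependent ℝ ![a, d] →
      ∃ P R : Polynomial ℝ, ∀ t : ℝ,
        φ (a + t • d) - φ (-(a + t • d)) = P.eval t ∧
        φ (a + t • d) * φ (-(a + t • d)) = R.eval t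

end Pool.Agent.BAN
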