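import Pool.Agent.Helper68_BAN.Ana2c

set_option autoImplicit false

namespace Pool.Agent.BAN.H68

open MeasureTheory Filter Topology Set
open scoped NNReal Polynomial

section

variable {n : ℕ} {g : EuclideanSpace ℝ (Fin (n + 1)) → ℝ} {f : ℝ → ℝ → ℝ}
    {A B C Q : EuclideanSpace ℝ (Fin (n + 1)) → EuclideanSpace ℝ (Fin (n + 1))}
    {w : EuclideanSpace ℝ (Fin (n + 1)) → ℝ} {L : ℝ≥0} {c β : ℝ}
    {S : Set (EuclideanSpace ℝ (Fin (n + 1)))}

/-- support value in the first coordinate direction -/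
theorem supp_val (hg : Gau g) : ∃ (H : ℝ) (ys : EuclideanSpace ℝ (Fin (n + 1))), 0 < H ∧
    g ys = 1 ∧ ys 0 = H ∧ ∀ y : EuclideanSpace ℝ (Fin (n + 1)), y 0 ≤ H * g y := by
  have hgc := gau_cont hg
  obtain ⟨cg, hcg, hgl⟩ := gau_lower hg
  have hK : IsCompact {y : EuclideanSpace ℝ (Fin (n + 1)) | g y ≤ 1} := by
    refine IsCompact.of_isClosed_subset (isCompact_closedBall 0 (1 / cg))
      (isClosed_le hgc continuous_const) fun y hy => ?_
    have hy' : g y ≤ 1 := hy
    have := hgl y
    rw [mem_closedBall_zero_iff, le_div_iff₀ hcg]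
    linarith
  have hne : {y : EuclideanSpace ℝ (Fin (n + 1)) | g y ≤ 1}.Nonempty :=
    ⟨0, by show g 0 ≤ 1; rw [gau_zero hg]; exact zero_le_one⟩
  obtain ⟨ys, hys, hmax⟩ := hK.exists_isMaxOn hne
    (f := fun y : EuclideanSpace ℝ (Fin (n + 1)) => y 0) (by fun_prop)
  have hys' : g ys ≤ 1 := hys
  have hmax' : ∀ y : EuclideanSpace ℝ (Fin (n + 1)), g y ≤ 1 → y 0 ≤ ys 0 := fun y hy => hmax hy
  have hle : ∀ y : EuclideanSpace ℝ (Fin (n + 1)), y 0 ≤ ys 0 * g y := by
    intro y
    by_cases hy : y = 0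
    · rw [hy, gau_zero hg]; simp
    · have hp := hg.pos y hy
      have h1 := hmax' ((g y)⁻¹ • y) (by
        rw [hg.hom _ _ (by positivity)]
        exact (inv_mul_cancel₀ hp.ne').le)
      have h2 : (g y)⁻¹ * y 0 ≤ ys 0 := by simpa using h1
      calc y 0 = ((g y)⁻¹ * y 0) * g y := by field_simp
        _ ≤ ys 0 * g y := by gcongr
  have hH : 0 < ys 0 := by
    set e0 : EuclideanSpace ℝ (Fin (n + 1)) := EuclideanSpace.single 0 1 with he0
    have he : e0 ≠ 0 := by
      intro h0
      have : e0 0 = 0 := by rw [h0]; rfl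
      simp [he0] at this
    have hp := hg.pos e0 he
    have h1 := hle e0
    have h2 : e0 0 = 1 := by simp [he0]
    rw [h2] at h1
    by_contra hcon
    push Not at hcon
    nlinarith
  refine ⟨ys 0, ys, hH, le_antisymm hys' ?_, rfl, hle⟩
  have h1 := hle ys
  by_contra hcon
  push Not at hcon
  nlinarith

/-- (B2): common zeros are real -/
theorem nonreal_zero (h : AD g f A B C Q w L c β S) (t : ℝ) (z : ℂ)
    (hmom : ∀ ψ : MvPolynomial (Fin (n + 1)) ℝ,
      ∫ x in S, MvPolynomial.aeval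
        (fun i => z * (((A x) i + t * (B x) i : ℝ) : ℂ) + (((C x) i : ℝ) : ℂ)) ψ
        * ((cut (w x) : ℝ) : ℂ) * cdet A B C t z x
      = ((∫ y, MvPolynomial.eval (fun i => y i) ψ * cut (g y) : ℝ) : ℂ)) : z.im = 0 := by
  obtain ⟨H, ys, hH, hgys, hysH, hle⟩ := supp_val h.hg
  obtain ⟨cg, hcg, hgl⟩ := gau_lower h.hg
  have hgc := gau_cont h.hg
  have hfin := TT_fin h
  set b0 : ℝ := max β 0 with hb0
  have hb01 : b0 < 1 := max_lt h.hβ one_pos
  have hco : ∀ (y : EuclideanSpace ℝ (Fin (n + 1))), |y 0| ≤ ‖y‖ := by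
    intro y
    rw [← Real.norm_eq_abs]
    exact PiLp.norm_apply_le _ 0
  set R1 : ℝ := L * (1 / c) + |t| * (L * (1 / c)) with hR1
  have hLc : 0 ≤ (L : ℝ) * (1 / c) := by
    have := h.hc
    positivity
  refine nr_main ((volume : Measure (EuclideanSpace ℝ (Fin (n + 1)))).restrict (TT w S))
    ((volume : Measure (EuclideanSpace ℝ (Fin (n + 1)))).restrict {y | g y ≤ 1})
    (fun x => (A x) 0 + t * (B x) 0) (fun x => (C x) 0)
    (fun x => ((cut (w x) : ℝ) : ℂ) * cdet A B C t z x)
    (fun y => y 0) (fun y => cut (g y)) ?_ ?_ ?_ (D_int h t z) (cutg_int h.hg).integrableOn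
    (Eventually.of_forall fun y => cut_nonneg _) (max R1 (1 / cg)) H (H * (1 - b0))
    (mul_pos hH (by linarith)) ?_ ?_ ?_ ?_ ?_ ?_ z ?_
  · have h1 : Continuous fun x => (A x) 0 + t * (B x) 0 := by
      have hA := h.hAL.continuous
      have hB := h.hBL.continuous
      fun_prop
    exact h1.aemeasurable
  · have h1 : Continuous fun x => (C x) 0 := by
      have hC := h.hCL.continuous
      fun_prop
    exact h1.aemeasurable
  · have h1 : Continuous fun y : EuclideanSpace ℝ (Fin (n + 1)) => y 0 := by fun_prop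
    exact h1.aemeasurable
  · filter_upwards [ae_restrict_mem (TT_meas h)] with x hx
    have h1 := lip_bound h h.hAL h.hA0 x hx
    have h2 := lip_bound h h.hBL h.hB0 x hx
    refine le_trans ?_ (le_max_left _ _)
    calc |(A x) 0 + t * (B x) 0| ≤ |(A x) 0| + |t| * |(B x) 0| := by
          refine (abs_add_le _ _).trans ?_
          rw [abs_mul]
      _ ≤ L * (1 / c) + |t| * (L * (1 / c)) := by
          have h3 := (hco (A x)).trans h1
          have h4 := (hco (B x)).trans h2
          gcongr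
  · filter_upwards [ae_restrict_mem (TT_meas h)] with x hx
    have h1 := lip_bound h h.hCL h.hC0 x hx
    refine le_trans ((hco (C x)).trans h1) ?_
    refine le_trans ?_ (le_max_left _ _)
    rw [hR1]
    have : 0 ≤ |t| * (L * (1 / c)) := mul_nonneg (abs_nonneg _) hLc
    linarith
  · have hms : MeasurableSet {y : EuclideanSpace ℝ (Fin (n + 1)) | g y ≤ 1} :=
      (isClosed_le hgc continuous_const).measurableSet
    filter_upwards [ae_restrict_mem hms] with y hy
    have hy' : g y ≤ 1 := hy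
    refine le_trans (hco y) (le_trans ?_ (le_max_right _ _))
    have := hgl y
    rw [le_div_iff₀ hcg]
    linarith
  · filter_upwards [ae_restrict_mem (TT_meas h)] with x hx
    have h1 := h.hup x 0 0 (by rw [f_zero h]; exact zero_le_one)
    rw [f_zero h, zero_smul, zero_smul, zero_add, zero_add, zero_add, sub_zero, one_mul] at h1
    have h2 := h.hw0 x
    have h3 : w x ≤ 1 := hx.2
    have h4 : g (C x) ≤ b0 := by
      calc g (C x) ≤ w x * β := h1
        _ ≤ w x * b0 := by gcongr; exact le_max_left _ _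
        _ ≤ 1 * b0 := by
          have : 0 ≤ b0 := le_max_right _ _
          gcongr
        _ = b0 := one_mul _
    calc (C x) 0 ≤ H * g (C x) := hle _
      _ ≤ H * b0 := by gcongr
      _ = H - H * (1 - b0) := by ring
  · have hms : MeasurableSet {y : EuclideanSpace ℝ (Fin (n + 1)) | g y ≤ 1} :=
      (isClosed_le hgc continuous_const).measurableSet
    filter_upwards [ae_restrict_mem hms] with y hy
    have hy' : g y ≤ 1 := hy
    calc y 0 ≤ H * g y := hle y
      _ ≤ H * 1 := by gcongr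
      _ = H := mul_one H
  · intro e he
    have hms : MeasurableSet {y : EuclideanSpace ℝ (Fin (n + 1)) | g y ≤ 1} :=
      (isClosed_le hgc continuous_const).measurableSet
    have hc0 : Continuous fun y : EuclideanSpace ℝ (Fin (n + 1)) => y 0 := by fun_prop
    have hU : IsOpen {y : EuclideanSpace ℝ (Fin (n + 1)) | H - e < y 0} :=
      isOpen_lt continuous_const hc0
    rw [Measure.restrict_restrict hU.measurableSet]
    have hVo : IsOpen ({y : EuclideanSpace ℝ (Fin (n + 1)) | H - e < y 0} ∩ {y | g y < 1}) :=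
      hU.inter (isOpen_lt hgc continuous_const)
    set τ : ℝ := 1 - min (1 / 4) (e / (2 * H)) with hτ
    have hτ1 : τ < 1 := by
      have : 0 < min (1 / 4) (e / (2 * H)) := lt_min (by norm_num) (by positivity)
      linarith
    have hτ2 : 3 / 4 ≤ τ := by
      have := min_le_left (1 / 4) (e / (2 * H))
      linarith
    have hgy : g (τ • ys) = τ := by
      rw [h.hg.hom _ _ (by linarith), hgys, mul_one]
    have hτH : H - e < τ * H := by
      have h1 := min_le_right (1 / 4) (e / (2 * H))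
      have h2 : (e / (2 * H)) * H = e / 2 := by field_simp
      have h3 : min (1 / 4) (e / (2 * H)) * H ≤ e / 2 := by
        rw [← h2]
        gcongr
      rw [hτ]
      nlinarith
    have h1 := shell_pos h.hg _ hVo (τ • ys) ⟨by
      show H - e < (τ • ys) 0
      simpa [hysH] using hτH, by
      show g (τ • ys) < 1
      rw [hgy]; exact hτ1⟩ (by rw [hgy]; linarith) (by rw [hgy]; exact hτ1)
    refine lt_of_lt_of_le h1 ?_
    refine setIntegral_mono_set (cutg_int h.hg).integrableOn
      (Eventually.of_forall fun y => cut_nonneg _) ?_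
    refine Filter.Eventually.of_forall ?_
    rintro y ⟨h2, h3⟩
    exact ⟨h2, (show g y < 1 from h3).le⟩
  · intro j
    have h1 := hmom (MvPolynomial.X 0 ^ j)
    rw [int_TT h _ (fun x hx => by rw [hx]; simp)] at h1
    have h2 : ∫ y, (((y 0 : ℝ)) : ℂ) ^ j * ((cut (g y) : ℝ) : ℂ)
        ∂((volume : Measure (EuclideanSpace ℝ (Fin (n + 1)))).restrict {y | g y ≤ 1})
        = ((∫ y, MvPolynomial.eval (fun i => y i) (MvPolynomial.X 0 ^ j) * cut (g y) : ℝ) : ℂ)
        := by
      rw [← integral_complex_ofReal]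
      have h3 : ∫ (y : EuclideanSpace ℝ (Fin (n + 1))),
          ((MvPolynomial.eval (fun i => y i) (MvPolynomial.X 0 ^ j) * cut (g y) : ℝ) : ℂ)
          = ∫ y in {y : EuclideanSpace ℝ (Fin (n + 1)) | g y ≤ 1},
          ((MvPolynomial.eval (fun i => y i) (MvPolynomial.X 0 ^ j) * cut (g y) : ℝ) : ℂ) := by
        refine (setIntegral_eq_integral_of_forall_compl_eq_zero fun y hy => ?_).symm
        have hy' : ¬ g y ≤ 1 := hy
        rw [cut_eq_zero (Or.inr (not_le.1 hy').le)]
        simp
      rw [h3]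
      refine integral_congr_ae (Eventually.of_forall fun y => ?_)
      simp
    rw [h2, ← h1]
    refine integral_congr_ae (Eventually.of_forall fun x => ?_)
    simp only [map_pow, MvPolynomial.aeval_X]
    ring

/-- ANA2 -/
theorem ana2 (hLIM : LIMStmt) (hPOLY : POLY2Stmt) : ANA2Stmt := by
  intro n g f A B C Q w L c β S hc hβ hg hfpos hfhom hfsub hAL hBL hCL hQL hA0 hB0 hC0 hQ0
    hQA hQB hQC hQ hwc hw0 hSm hSw hup hlow hnull
  have h : AD g f A B C Q w L c β S := ⟨hc, hβ, hg, hfpos, hfhom, hfsub, hAL, hBL, hCL, hQL, hA0,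
    hB0, hC0, hQ0, hQA, hQB, hQC, hQ, hwc, hw0, hSm, hSw, hup, hlow, hnull⟩
  choose Δ hΔ0 hΔ using fun ψ => hPOLY (n + 1) A B C w L c S hc hAL hBL hCL hwc hSm hSw ψ
  set cc : MvPolynomial (Fin (n + 1)) ℝ → ℝ := fun ψ =>
    ∫ y : EuclideanSpace ℝ (Fin (n + 1)), MvPolynomial.eval (fun i => y i) ψ * cut (g y) with hcc
  set Δ' : MvPolynomial (Fin (n + 1)) ℝ → ℝ[X][X] := fun ψ =>
    Δ ψ - Polynomial.C (Polynomial.C (cc ψ)) with hΔ'
  have hev : ∀ ψ (t : ℝ) (z : ℂ),
      (((Δ' ψ).map (Polynomial.evalRingHom t)).map (algebraMap ℝ ℂ)).eval z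
        = (∫ x in S, MvPolynomial.aeval
        (fun i => z * (((A x) i + t * (B x) i : ℝ) : ℂ) + (((C x) i : ℝ) : ℂ)) ψ
        * ((cut (w x) : ℝ) : ℂ) * cdet A B C t z x) - ((cc ψ : ℝ) : ℂ) := by
    intro ψ t z
    rw [← hΔ ψ t z, hΔ']
    simp
  -- real points
  have hreal : ∀ ψ (t r : ℝ), f r (r * t) = 1 →
      ((Δ' ψ).map (Polynomial.evalRingHom t)).eval r = 0 := by
    intro ψ t r hf
    have h1 := hev ψ t (r : ℂ)
    rw [real_form h t r ψ, at_zero hLIM h t r hf ψ, hcc, sub_self] at h1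
    have h2 : (((Δ' ψ).map (Polynomial.evalRingHom t)).map (algebraMap ℝ ℂ)).eval (r : ℂ)
        = ((((Δ' ψ).map (Polynomial.evalRingHom t)).eval r : ℝ) : ℂ) := by
      rw [Polynomial.eval_map_algebraMap]
      exact Polynomial.aeval_algebraMap_apply ℂ r _
    rw [h2] at h1
    exact_mod_cast h1
  have hfp : ∀ t : ℝ, 0 < f 1 t := fun t => hfpos 1 t (Or.inl one_ne_zero)
  have hfm : ∀ t : ℝ, 0 < f (-1) (-t) := fun t => hfpos (-1) (-t) (Or.inl (by norm_num))
  have hposr : ∀ t r : ℝ, 0 ≤ r → f r (r * t) = r * f 1 t := by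
    intro t r hr
    have := hfhom r 1 t hr
    simpa using this
  have hnegr : ∀ t r : ℝ, r ≤ 0 → f r (r * t) = (-r) * f (-1) (-t) := by
    intro t r hr
    have := hfhom (-r) (-1) (-t) (by linarith)
    simpa using this
  -- continuity
  have hcont : ∀ σ : ℝ, Continuous fun t : ℝ => f σ (σ * t) := by
    intro σ
    set K : ℝ := |σ| * (f 0 1 + f 0 (-1)) with hK
    have hK0 : 0 ≤ K := mul_nonneg (abs_nonneg _) (add_nonneg (f_nonneg h _ _) (f_nonneg h _ _))
    have hd : ∀ u : ℝ, f 0 u ≤ |u| * (f 0 1 + f 0 (-1)) := by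
      intro u
      have h1 := f_nonneg h 0 1
      have h2 := f_nonneg h 0 (-1)
      rcases le_total 0 u with hu | hu
      · have h3 := hfhom u 0 1 hu
        rw [mul_zero, mul_one] at h3
        rw [h3, abs_of_nonneg hu]
        nlinarith
      · have h3 := hfhom (-u) 0 (-1) (by linarith)
        rw [mul_zero, mul_neg, mul_one, neg_neg] at h3
        rw [h3, abs_of_nonpos hu]
        nlinarith
    have hone : ∀ t s : ℝ, f σ (σ * t) - f σ (σ * s) ≤ K * |t - s| := by
      intro t s
      have h1 := hfsub σ (σ * s) 0 (σ * (t - s))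
      have h2 := hd (σ * (t - s))
      rw [abs_mul] at h2
      have h3 : σ * s + σ * (t - s) = σ * t := by ring
      rw [add_zero, h3] at h1
      rw [hK]
      nlinarith
    refine LipschitzWith.continuous (K := K.toNNReal) (LipschitzWith.of_dist_le_mul fun x y => ?_)
    rw [Real.dist_eq, Real.dist_eq, Real.coe_toNNReal _ hK0, abs_le]
    refine ⟨?_, hone x y⟩
    have := hone y x
    rw [abs_sub_comm] at this
    linarith
  obtain ⟨P, R, hPR⟩ := Pool.Agent.Ban.H41.alg Δ' (fun t => f 1 t) (fun t => -f (-1) (-t))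
    (by simpa using hcont 1)
    (by
      have h1 : Continuous fun t : ℝ => f (-1) (-t) := by simpa using hcont (-1)
      exact h1.neg) hfp
    (fun t => by have := hfm t; simpa using this)
    (fun ψ t => hreal ψ t _ (by
      rw [hposr t _ (inv_nonneg.2 (hfp t).le)]
      exact inv_mul_cancel₀ (hfp t).ne'))
    (fun ψ t => hreal ψ t _ (by
      rw [hnegr t _ (by
        rw [inv_neg]
        have := inv_pos.2 (hfm t)
        linarith)]
      rw [inv_neg, neg_neg]
      exact inv_mul_cancel₀ (hfm t).ne'))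
    (fun t z hz => by
      have hmom : ∀ ψ : MvPolynomial (Fin (n + 1)) ℝ,
          ∫ x in S, MvPolynomial.aeval
            (fun i => z * (((A x) i + t * (B x) i : ℝ) : ℂ) + (((C x) i : ℝ) : ℂ)) ψ
            * ((cut (w x) : ℝ) : ℂ) * cdet A B C t z x = ((cc ψ : ℝ) : ℂ) := by
        intro ψ
        have h1 := hz ψ
        rw [hev] at h1
        exact sub_eq_zero.1 h1
      have him := nonreal_zero h t z hmom
      obtain ⟨r, hr⟩ : ∃ r : ℝ, z = (r : ℂ) := ⟨z.re, by
        apply Complex.ext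
        · simp
        · simp [him]⟩
      rw [hr] at hmom
      have h1 := real_zero h t r (fun ψ => by
        have h2 := hmom ψ
        rw [real_form h t r ψ] at h2
        exact_mod_cast h2)
      rcases le_total 0 r with h0 | h0
      · left
        rw [hposr t r h0] at h1
        rw [hr]
        congr 1
        exact eq_inv_of_mul_eq_one_left h1
      · right
        rw [hnegr t r h0] at h1
        rw [hr]
        congr 1
        refine eq_inv_of_mul_eq_one_left ?_
        linarith)
    (fun ψ => by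
      obtain ⟨a, ha⟩ := hΔ0 ψ
      refine ⟨a - cc ψ, ?_⟩
      rw [hΔ']
      simp [ha])
  refine ⟨P, -R, fun t => ?_⟩
  obtain ⟨h1, h2⟩ := hPR t
  refine ⟨by linarith, ?_⟩
  rw [Polynomial.eval_neg, ← h2]
  ring

end

end Pool.Agent.BAN.H68
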