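import Pool.Agent.Helper68_BAN.Stmt3

set_option autoImplicit false

namespace Pool.Agent.BAN.H68

open MeasureTheory Filter Topology Set
open scoped NNReal Polynomial

/-! ### gauges -/

section Gauge

variable {V : Type} [NormedAddCommGroup V] [NormedSpace ℝ V] {φ : V → ℝ}

theorem gau_zero (h : Gau φ) : φ 0 = 0 := by
  have := h.hom 0 0 le_rfl
  simpa using this

theorem gau_nonneg (h : Gau φ) (x : V) : 0 ≤ φ x := by
  by_cases hx : x = 0
  · rw [hx, gau_zero h]
  · exact (h.pos x hx).le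

end Gauge

section GaugeFin

variable {V : Type} [NormedAddCommGroup V] [InnerProductSpace ℝ V] [FiniteDimensional ℝ V]
  {φ : V → ℝ}

theorem gau_upper (h : Gau φ) : ∃ C : ℝ, 0 < C ∧ ∀ x, φ x ≤ C * ‖x‖ := by
  classical
  set bs := stdOrthonormalBasis ℝ V with hbs
  refine ⟨∑ i, (φ (bs i) + φ (-bs i)) + 1, ?_, fun x => ?_⟩
  · have : 0 ≤ ∑ i, (φ (bs i) + φ (-bs i)) :=
      Finset.sum_nonneg fun i _ => add_nonneg (gau_nonneg h _) (gau_nonneg h _)
    linarith
  · have h1 : ∀ (s : Finset (Fin (Module.finrank ℝ V))) (v : Fin (Module.finrank ℝ V) → V),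
        φ (∑ i ∈ s, v i) ≤ ∑ i ∈ s, φ (v i) := by
      intro s v
      induction s using Finset.induction_on with
      | empty => simp [gau_zero h]
      | insert a s ha ih =>
        rw [Finset.sum_insert ha, Finset.sum_insert ha]
        exact (h.sub _ _).trans (by linarith)
    have h2 : ∀ i, φ ((inner ℝ (bs i) x : ℝ) • bs i) ≤ ‖x‖ * (φ (bs i) + φ (-bs i)) := by
      intro i
      have h3 : |inner ℝ (bs i) x| ≤ ‖x‖ := by
        have := abs_real_inner_le_norm (bs i) x
        simpa using this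
      rcases le_total 0 (inner ℝ (bs i) x) with h4 | h4
      · rw [h.hom _ _ h4]
        rw [abs_of_nonneg h4] at h3
        have := gau_nonneg h (bs i)
        have := gau_nonneg h (-bs i)
        nlinarith [norm_nonneg x]
      · have h5 : (inner ℝ (bs i) x : ℝ) • bs i = (-(inner ℝ (bs i) x : ℝ)) • (-bs i) := by simp
        rw [h5, h.hom _ _ (by linarith)]
        rw [abs_of_nonpos h4] at h3
        have := gau_nonneg h (bs i)
        have := gau_nonneg h (-bs i)
        nlinarith [norm_nonneg x]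
    calc φ x = φ (∑ i, (inner ℝ (bs i) x : ℝ) • bs i) := by
          congr 1
          exact (bs.sum_repr' x).symm
      _ ≤ ∑ i, φ ((inner ℝ (bs i) x : ℝ) • bs i) := h1 _ _
      _ ≤ ∑ i, ‖x‖ * (φ (bs i) + φ (-bs i)) := Finset.sum_le_sum fun i _ => h2 i
      _ = (∑ i, (φ (bs i) + φ (-bs i))) * ‖x‖ := by rw [← Finset.mul_sum, mul_comm]
      _ ≤ _ := by
          have := norm_nonneg x
          nlinarith

theorem gau_cont (h : Gau φ) : Continuous φ := by
  obtain ⟨C, hC, hb⟩ := gau_upper h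
  have h1 : ∀ x y, φ x - φ y ≤ C * ‖x - y‖ := by
    intro x y
    have h2 := h.sub (x - y) y
    rw [sub_add_cancel] at h2
    have h3 := hb (x - y)
    linarith
  refine LipschitzWith.continuous (K := C.toNNReal) (LipschitzWith.of_dist_le_mul fun x y => ?_)
  rw [Real.dist_eq, dist_eq_norm, Real.coe_toNNReal _ hC.le, abs_le]
  refine ⟨?_, h1 x y⟩
  have := h1 y x
  rw [norm_sub_rev] at this
  linarith

theorem gau_lower (h : Gau φ) : ∃ c : ℝ, 0 < c ∧ ∀ x, c * ‖x‖ ≤ φ x := by
  rcases subsingleton_or_nontrivial V with hV | hV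
  · refine ⟨1, one_pos, fun x => ?_⟩
    rw [Subsingleton.elim x 0, gau_zero h]
    simp
  · have hne : (Metric.sphere (0 : V) 1).Nonempty := NormedSpace.sphere_nonempty.2 zero_le_one
    obtain ⟨x0, hx0, hmin⟩ := (isCompact_sphere (0 : V) 1).exists_isMinOn hne
      (gau_cont h).continuousOn
    have hx0' : ‖x0‖ = 1 := by simpa using hx0
    have hx00 : x0 ≠ 0 := by
      intro h0
      rw [h0, norm_zero] at hx0'
      exact zero_ne_one hx0'
    refine ⟨φ x0, h.pos _ hx00, fun x => ?_⟩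
    by_cases hx : x = 0
    · rw [hx, gau_zero h]; simp
    · have hn : 0 < ‖x‖ := norm_pos_iff.2 hx
      have h1 : (‖x‖⁻¹ • x) ∈ Metric.sphere (0 : V) 1 := by
        simp [norm_smul, hn.ne']
      have h2 : φ x0 ≤ φ (‖x‖⁻¹ • x) := hmin h1
      rw [h.hom _ _ (by positivity)] at h2
      calc φ x0 * ‖x‖ ≤ (‖x‖⁻¹ * φ x) * ‖x‖ := by gcongr
        _ = φ x := by field_simp

end GaugeFin

/-! ### the cut-off -/

theorem cut_cont : Continuous cut := by
  unfold cut
  fun_prop

theorem cut_nonneg (r : ℝ) : 0 ≤ cut r := le_max_left _ _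

theorem cut_eq_zero {r : ℝ} (h : r ≤ 1 / 2 ∨ 1 ≤ r) : cut r = 0 := by
  unfold cut
  refine max_eq_left ?_
  rcases h with h | h
  · by_cases h1 : r ≤ 1
    · nlinarith
    · linarith
  · nlinarith

theorem cut_pos {r : ℝ} (h : 1 / 2 < r) (h' : r < 1) : 0 < cut r := by
  unfold cut
  exact lt_max_of_lt_right (mul_pos (by linarith) (by linarith))

theorem cut_le {r : ℝ} : cut r ≤ 1 := by
  unfold cut
  refine max_le zero_le_one ?_
  nlinarith [sq_nonneg (r - 3 / 4)]

/-! ### the complexified determinant -/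

section Cdet

variable {n : ℕ} {A B C : EuclideanSpace ℝ (Fin n) → EuclideanSpace ℝ (Fin n)} {L : ℝ≥0}

theorem cdet_meas (A B C : EuclideanSpace ℝ (Fin n) → EuclideanSpace ℝ (Fin n)) (t : ℝ) (z : ℂ) :
    Measurable (cdet A B C t z) := by
  have hm : ∀ (F : EuclideanSpace ℝ (Fin n) → EuclideanSpace ℝ (Fin n)) (i j : Fin n),
      Measurable fun x => (fderiv ℝ F x (EuclideanSpace.single j 1)) i := by
    intro F i j
    have h1 : Measurable fun x => fderiv ℝ F x (EuclideanSpace.single j 1) :=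
      measurable_fderiv_apply_const ℝ F _
    have h2 : Continuous fun y : EuclideanSpace ℝ (Fin n) => y i := by fun_prop
    exact h2.measurable.comp h1
  unfold cdet
  simp only [Matrix.det_apply, Matrix.of_apply]
  refine Finset.measurable_fun_sum _ fun σ _ => Measurable.const_smul ?_ _
  refine Finset.measurable_fun_prod _ fun i _ => ?_
  refine Measurable.add (Measurable.const_mul ?_ _) ?_
  · exact Complex.measurable_ofReal.comp ((hm A _ _).add ((hm B _ _).const_mul t))
  · exact Complex.measurable_ofReal.comp (hm C _ _)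

theorem cdet_bound (hA : LipschitzWith L A) (hB : LipschitzWith L B) (hC : LipschitzWith L C)
    (t : ℝ) (z : ℂ) : ∃ K : ℝ, 0 ≤ K ∧ ∀ x, ‖cdet A B C t z x‖ ≤ K := by
  have hm : ∀ (F : EuclideanSpace ℝ (Fin n) → EuclideanSpace ℝ (Fin n)), LipschitzWith L F →
      ∀ x (i j : Fin n), |(fderiv ℝ F x (EuclideanSpace.single j 1)) i| ≤ L := by
    intro F hF x i j
    calc |(fderiv ℝ F x (EuclideanSpace.single j 1)) i|
        ≤ ‖fderiv ℝ F x (EuclideanSpace.single j 1)‖ := by
          rw [← Real.norm_eq_abs]; exact PiLp.norm_apply_le _ i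
      _ ≤ ‖fderiv ℝ F x‖ * ‖(EuclideanSpace.single j (1 : ℝ) : EuclideanSpace ℝ (Fin n))‖ :=
          ContinuousLinearMap.le_opNorm _ _
      _ = ‖fderiv ℝ F x‖ := by simp
      _ ≤ L := norm_fderiv_le_of_lipschitz ℝ hF
  refine ⟨Nat.factorial (Fintype.card (Fin n)) • (‖z‖ * (L + |t| * L) + L) ^ Fintype.card (Fin n),
    by positivity, fun x => ?_⟩
  unfold cdet
  have := Matrix.det_le (A := Matrix.of fun i j : Fin n =>
    z * ((((fderiv ℝ A x (EuclideanSpace.single j 1)) i
      + t * (fderiv ℝ B x (EuclideanSpace.single j 1)) i : ℝ)) : ℂ)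
    + (((fderiv ℝ C x (EuclideanSpace.single j 1)) i : ℝ) : ℂ))
    (abv := IsAbsoluteValue.toAbsoluteValue (norm : ℂ → ℝ))
    (x := ‖z‖ * (L + |t| * L) + L) ?_
  · simpa using this
  · intro i j
    simp only [IsAbsoluteValue.toAbsoluteValue_apply, Matrix.of_apply]
    refine (norm_add_le _ _).trans ?_
    rw [norm_mul, Complex.norm_real, Complex.norm_real, Real.norm_eq_abs, Real.norm_eq_abs]
    have h1 := hm A hA x i j
    have h2 := hm B hB x i j
    have h3 := hm C hC x i j
    gcongr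
    refine (abs_add_le _ _).trans ?_
    rw [abs_mul]
    gcongr

theorem cdet_real (hA : LipschitzWith L A) (hB : LipschitzWith L B) (hC : LipschitzWith L C)
    (t r : ℝ) : ∀ᵐ x ∂(volume : Measure (EuclideanSpace ℝ (Fin n))),
      cdet A B C t (r : ℂ) x
        = (((fderiv ℝ (fun y => r • A y + (r * t) • B y + C y) x).det : ℝ) : ℂ) := by
  filter_upwards [hA.ae_differentiableAt, hB.ae_differentiableAt, hC.ae_differentiableAt]
    with x h1 h2 h3
  have h4 : fderiv ℝ (fun y => r • A y + (r * t) • B y + C y) x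
      = r • fderiv ℝ A x + (r * t) • fderiv ℝ B x + fderiv ℝ C x := by
    refine HasFDerivAt.fderiv ?_
    exact ((h1.hasFDerivAt.const_smul r).add (h2.hasFDerivAt.const_smul (r * t))).add
      h3.hasFDerivAt
  rw [h4, ContinuousLinearMap.det,
    ← LinearMap.det_toMatrix (EuclideanSpace.basisFun (Fin n) ℝ).toBasis]
  rw [show ((Matrix.det (LinearMap.toMatrix (EuclideanSpace.basisFun (Fin n) ℝ).toBasis
    (EuclideanSpace.basisFun (Fin n) ℝ).toBasis
    ((r • fderiv ℝ A x + (r * t) • fderiv ℝ B x + fderiv ℝ C x :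
      EuclideanSpace ℝ (Fin n) →L[ℝ] EuclideanSpace ℝ (Fin n)) :
      EuclideanSpace ℝ (Fin n) →ₗ[ℝ] EuclideanSpace ℝ (Fin n))) : ℝ) : ℂ)
    = Complex.ofRealHom (Matrix.det (LinearMap.toMatrix
      (EuclideanSpace.basisFun (Fin n) ℝ).toBasis
      (EuclideanSpace.basisFun (Fin n) ℝ).toBasis
      ((r • fderiv ℝ A x + (r * t) • fderiv ℝ B x + fderiv ℝ C x :
      EuclideanSpace ℝ (Fin n) →L[ℝ] EuclideanSpace ℝ (Fin n)) :
      EuclideanSpace ℝ (Fin n) →ₗ[ℝ] EuclideanSpace ℝ (Fin n)))) from rfl, RingHom.map_det]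
  unfold cdet
  congr 1
  ext i j
  simp [LinearMap.toMatrix_apply]
  ring

end Cdet

end Pool.Agent.BAN.H68
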