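import Mathlib

/-!
Non-real common zeros: if all moments of `W = z p + q` against a complex density `D` agree with the
moments of a real bounded function `f` against a nonnegative density `k`, then `z` is real,
provided `q` stays strictly below the essential supremum of `f`.
-/

namespace Pool.Agent.BAN.H68

open MeasureTheory Filter Topology

/-- approximating polynomials of `1/(x0 - w)` in the disc with centre `c` -/
noncomputable def gpoly (x0 c : ℂ) (N : ℕ) : Polynomial ℂ :=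
  ∑ i ∈ Finset.range N, Polynomial.C ((x0 - c)⁻¹ ^ (i + 1)) * (Polynomial.X - Polynomial.C c) ^ i

theorem gpoly_eval (x0 c w : ℂ) (N : ℕ) :
    (gpoly x0 c N).eval w = ∑ i ∈ Finset.range N, (x0 - c)⁻¹ ^ (i + 1) * (w - c) ^ i := by
  simp [gpoly, Polynomial.eval_finsetSum]

theorem gpoly_bound {x0 c w : ℂ} {r : ℝ} (hr0 : 0 ≤ r) (hr : r < 1) (hc : x0 ≠ c)
    (hw : ‖w - c‖ ≤ r * ‖x0 - c‖) (N : ℕ) :
    ‖(gpoly x0 c N).eval w‖ ≤ ‖x0 - c‖⁻¹ * (1 - r)⁻¹ := by
  have h0 : 0 < ‖x0 - c‖ := norm_pos_iff.2 (sub_ne_zero.2 hc)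
  rw [gpoly_eval]
  calc ‖∑ i ∈ Finset.range N, (x0 - c)⁻¹ ^ (i + 1) * (w - c) ^ i‖
      ≤ ∑ i ∈ Finset.range N, ‖(x0 - c)⁻¹ ^ (i + 1) * (w - c) ^ i‖ := norm_sum_le _ _
    _ ≤ ∑ i ∈ Finset.range N, ‖x0 - c‖⁻¹ * r ^ i := by
        refine Finset.sum_le_sum fun i _ => ?_
        rw [norm_mul, norm_pow, norm_pow, norm_inv, pow_succ, mul_assoc, mul_comm (_ ^ i),
          mul_assoc]
        refine mul_le_mul_of_nonneg_left ?_ (by positivity)
        rw [← mul_pow]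
        refine pow_le_pow_left₀ (by positivity) ?_ i
        calc ‖w - c‖ * ‖x0 - c‖⁻¹ ≤ (r * ‖x0 - c‖) * ‖x0 - c‖⁻¹ := by gcongr
          _ = r := by field_simp
    _ = ‖x0 - c‖⁻¹ * ∑ i ∈ Finset.range N, r ^ i := by rw [Finset.mul_sum]
    _ ≤ ‖x0 - c‖⁻¹ * (1 - r)⁻¹ := by
        refine mul_le_mul_of_nonneg_left ?_ (by positivity)
        have := (summable_geometric_of_lt_one hr0 hr).sum_le_tsum (Finset.range N)
          (fun i _ => pow_nonneg hr0 i)
        rwa [tsum_geometric_of_lt_one hr0 hr] at this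

theorem gpoly_tendsto {x0 c w : ℂ} {r : ℝ} (hr : r < 1) (hc : x0 ≠ c)
    (hw : ‖w - c‖ ≤ r * ‖x0 - c‖) :
    Tendsto (fun N => (gpoly x0 c N).eval w) atTop (𝓝 (x0 - w)⁻¹) := by
  have h0 : 0 < ‖x0 - c‖ := norm_pos_iff.2 (sub_ne_zero.2 hc)
  have h1 : ‖(w - c) * (x0 - c)⁻¹‖ < 1 := by
    rw [norm_mul, norm_inv]
    calc ‖w - c‖ * ‖x0 - c‖⁻¹ ≤ (r * ‖x0 - c‖) * ‖x0 - c‖⁻¹ := by gcongr
      _ = r := by field_simp
      _ < 1 := hr
  have h2 := (hasSum_geometric_of_norm_lt_one h1).mul_left ((x0 - c)⁻¹)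
  have h3 : x0 - c ≠ 0 := sub_ne_zero.2 hc
  have h4 : (x0 - c)⁻¹ * (1 - (w - c) * (x0 - c)⁻¹)⁻¹ = (x0 - w)⁻¹ := by
    rw [← mul_inv]
    congr 1
    field_simp
    ring
  rw [h4] at h2
  have h5 := h2.tendsto_sum_nat
  refine h5.congr fun N => ?_
  rw [gpoly_eval]
  refine Finset.sum_congr rfl fun i _ => ?_
  rw [mul_pow, pow_succ]
  ring

theorem norm_sub_lower {x0 c w : ℂ} {r : ℝ}
    (hw : ‖w - c‖ ≤ r * ‖x0 - c‖) : (1 - r) * ‖x0 - c‖ ≤ ‖x0 - w‖ := by
  have : ‖x0 - c‖ ≤ ‖x0 - w‖ + ‖w - c‖ := by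
    have := norm_add_le (x0 - w) (w - c)
    simpa using this
  linarith

theorem inv_bound {x0 c w : ℂ} {r : ℝ} (hr : r < 1) (hc : x0 ≠ c)
    (hw : ‖w - c‖ ≤ r * ‖x0 - c‖) : ‖(x0 - w)⁻¹‖ ≤ ‖x0 - c‖⁻¹ * (1 - r)⁻¹ := by
  have h0 : 0 < ‖x0 - c‖ := norm_pos_iff.2 (sub_ne_zero.2 hc)
  have h1 := norm_sub_lower hw
  have h2 : 0 < (1 - r) * ‖x0 - c‖ := mul_pos (by linarith) h0
  rw [norm_inv, ← mul_inv, mul_comm ‖x0 - c‖]
  exact inv_anti₀ h2 h1

theorem poly_bound (P : Polynomial ℂ) (R : ℝ) :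
    ∃ K : ℝ, 0 ≤ K ∧ ∀ w : ℂ, ‖w‖ ≤ R → ‖P.eval w‖ ≤ K := by
  have h : IsCompact (Metric.closedBall (0 : ℂ) R) := isCompact_closedBall _ _
  obtain ⟨K, hK⟩ := h.exists_bound_of_continuousOn (f := fun w => P.eval w)
    P.continuous.continuousOn
  refine ⟨max K 0, le_max_right _ _, fun w hw => le_trans (hK w ?_) (le_max_left _ _)⟩
  simpa using hw

theorem nr_lim {Ω : Type*} [MeasurableSpace Ω] (m : Measure Ω) (W D : Ω → ℂ)
    (hW : AEMeasurable W m) (hD : Integrable D m) (x0 c : ℂ) (r : ℝ) (hr0 : 0 ≤ r) (hr : r < 1)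
    (hWx : ∀ᵐ x ∂m, ‖W x - c‖ ≤ r * ‖x0 - c‖) (hc : x0 ≠ c) (P : Polynomial ℂ) (j : ℕ) :
    Tendsto (fun N => ∫ x, (P * gpoly x0 c N).eval (W x) * (x0 - W x)⁻¹ ^ j * D x ∂m) atTop
      (𝓝 (∫ x, P.eval (W x) * (x0 - W x)⁻¹ ^ (j + 1) * D x ∂m)) := by
  obtain ⟨K, hK0, hK⟩ := poly_bound P (‖c‖ + r * ‖x0 - c‖)
  have hKW : ∀ᵐ x ∂m, ‖P.eval (W x)‖ ≤ K := by
    filter_upwards [hWx] with x hx
    refine hK _ ?_
    calc ‖W x‖ = ‖c + (W x - c)‖ := by ring_nf
      _ ≤ ‖c‖ + ‖W x - c‖ := norm_add_le _ _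
      _ ≤ _ := by linarith
  set B : ℝ := ‖x0 - c‖⁻¹ * (1 - r)⁻¹ with hB
  have hB0 : 0 ≤ B := mul_nonneg (by positivity) (inv_nonneg.2 (by linarith))
  refine tendsto_integral_of_dominated_convergence (fun x => K * B * B ^ j * ‖D x‖) ?_ ?_ ?_ ?_
  · intro N
    refine AEStronglyMeasurable.mul (AEStronglyMeasurable.mul ?_ ?_) hD.aestronglyMeasurable
    · exact (Polynomial.continuous _).comp_aestronglyMeasurable hW.aestronglyMeasurable
    · exact (((aemeasurable_const.sub hW).inv).pow_const j).aestronglyMeasurable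
  · exact hD.norm.const_mul _
  · intro N
    filter_upwards [hKW, hWx] with x h1 h2
    rw [Polynomial.eval_mul, norm_mul, norm_mul, norm_mul, norm_pow]
    have h3 := gpoly_bound hr0 hr hc h2 N
    have h4 := inv_bound hr hc h2
    rw [← hB] at h3 h4
    gcongr
  · filter_upwards [hWx] with x hx
    have h3 := gpoly_tendsto hr hc hx
    have h4 : Tendsto (fun N => P.eval (W x) * (gpoly x0 c N).eval (W x) * (x0 - W x)⁻¹ ^ j * D x)
        atTop (𝓝 (P.eval (W x) * (x0 - W x)⁻¹ * (x0 - W x)⁻¹ ^ j * D x)) :=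
      ((h3.const_mul _).mul_const _).mul_const _
    have h5 : P.eval (W x) * (x0 - W x)⁻¹ * (x0 - W x)⁻¹ ^ j * D x
        = P.eval (W x) * (x0 - W x)⁻¹ ^ (j + 1) * D x := by
      rw [pow_succ]; ring
    rw [h5] at h4
    refine h4.congr fun N => ?_
    rw [Polynomial.eval_mul]

/-- the moment identity for all polynomials, with negative powers of `x0 - W` -/
theorem nr_step {Ω Ω' : Type*} [MeasurableSpace Ω] [MeasurableSpace Ω']
    (m : Measure Ω) (m' : Measure Ω')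
    (W D : Ω → ℂ) (f k : Ω' → ℂ) (hW : AEMeasurable W m) (hf : AEMeasurable f m')
    (hD : Integrable D m) (hk : Integrable k m')
    (x0 c : ℂ) (r : ℝ) (hr0 : 0 ≤ r) (hr : r < 1)
    (hWx : ∀ᵐ x ∂m, ‖W x - c‖ ≤ r * ‖x0 - c‖) (hfx : ∀ᵐ y ∂m', ‖f y - c‖ ≤ r * ‖x0 - c‖)
    (hc : x0 ≠ c)
    (hmom : ∀ P : Polynomial ℂ, ∫ x, P.eval (W x) * D x ∂m = ∫ y, P.eval (f y) * k y ∂m')
    (j : ℕ) : ∀ (P : Polynomial ℂ), ∫ x, P.eval (W x) * (x0 - W x)⁻¹ ^ j * D x ∂m
      = ∫ y, P.eval (f y) * (x0 - f y)⁻¹ ^ j * k y ∂m' := by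
  induction j with
  | zero => intro P; simpa using hmom P
  | succ j ih =>
    intro P
    have h1 := nr_lim m W D hW hD x0 c r hr0 hr hWx hc P j
    have h2 := nr_lim m' f k hf hk x0 c r hr0 hr hfx hc P j
    refine tendsto_nhds_unique h1 (h2.congr fun N => ?_)
    exact (ih (P * gpoly x0 c N)).symm

/-- the geometric part: all points of a bounded set in the half plane `Re (om (W - x0)) ≤ -kap`
lie in one disc with `x0` on its boundary circle, uniformly inside -/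
theorem nr_disc (om x0 : ℂ) (kap R : ℝ) (hkap : 0 < kap) (hom : om ≠ 0) :
    ∃ (c : ℂ) (r : ℝ), x0 ≠ c ∧ 0 ≤ r ∧ r < 1 ∧ ∀ W : ℂ, ‖W - x0‖ ≤ R →
      (om * (W - x0)).re ≤ -kap → ‖W - c‖ ≤ r * ‖x0 - c‖ := by
  -- centre `c = x0 - T conj om`
  have hn : 0 < ‖om‖ := norm_pos_iff.2 hom
  obtain ⟨T, hT⟩ : ∃ T : ℝ, 0 < T ∧ R ^ 2 ≤ T * kap := by
    refine ⟨(R ^ 2 + 1) / kap, by positivity, ?_⟩
    rw [div_mul_cancel₀ _ hkap.ne']
    linarith
  obtain ⟨hT0, hT1⟩ := hT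
  refine ⟨x0 - T * (starRingEnd ℂ) om,
    Real.sqrt (max 0 (1 - T * kap / (T ^ 2 * ‖om‖ ^ 2))), ?_, Real.sqrt_nonneg _, ?_, ?_⟩
  · intro h
    have : (T : ℂ) * (starRingEnd ℂ) om = 0 := by
      have := sub_eq_zero.2 h
      simpa using this
    rcases mul_eq_zero.1 this with h1 | h1
    · exact hT0.ne' (by exact_mod_cast h1)
    · exact hom (by simpa using h1)
  · rw [Real.sqrt_lt' one_pos, one_pow]
    refine max_lt one_pos ?_
    have : 0 < T * kap / (T ^ 2 * ‖om‖ ^ 2) := by positivity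
    linarith
  · intro W h1 h2
    have e1 : x0 - (x0 - T * (starRingEnd ℂ) om) = T * (starRingEnd ℂ) om := by ring
    have e2 : W - (x0 - T * (starRingEnd ℂ) om) = (W - x0) + T * (starRingEnd ℂ) om := by ring
    rw [e1, e2]
    have e3 : ‖(T : ℂ) * (starRingEnd ℂ) om‖ = T * ‖om‖ := by
      rw [norm_mul, Complex.norm_real, RCLike.norm_conj, Real.norm_of_nonneg hT0.le]
    have e4 : ‖(W - x0) + T * (starRingEnd ℂ) om‖ ^ 2
        = ‖W - x0‖ ^ 2 + 2 * T * (om * (W - x0)).re + (T * ‖om‖) ^ 2 := by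
      rw [← e3]
      rw [← Complex.normSq_eq_norm_sq, ← Complex.normSq_eq_norm_sq, ← Complex.normSq_eq_norm_sq,
        Complex.normSq_add]
      have : ((W - x0) * (starRingEnd ℂ) (T * (starRingEnd ℂ) om)).re
          = T * (om * (W - x0)).re := by
        simp [Complex.mul_re]
        ring
      rw [this]
      ring
    have e5 : ‖(W - x0) + T * (starRingEnd ℂ) om‖ ^ 2
        ≤ (1 - T * kap / (T ^ 2 * ‖om‖ ^ 2)) * (T * ‖om‖) ^ 2 := by
      rw [e4]
      have : (1 - T * kap / (T ^ 2 * ‖om‖ ^ 2)) * (T * ‖om‖) ^ 2 = (T * ‖om‖) ^ 2 - T * kap := by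
        field_simp
      rw [this]
      have h3 : ‖W - x0‖ ^ 2 ≤ R ^ 2 := pow_le_pow_left₀ (norm_nonneg _) h1 2
      have h4 : 2 * T * (om * (W - x0)).re ≤ 2 * T * (-kap) :=
        mul_le_mul_of_nonneg_left h2 (by positivity)
      linarith
    rw [e3]
    refine le_of_sq_le_sq ?_ (by positivity)
    rw [mul_pow, Real.sq_sqrt (le_max_left _ _)]
    refine e5.trans ?_
    gcongr
    exact le_max_right _ _

/-- MAIN: a moment identity `∫ (z p + q)^j D = ∫ f^j k` with `q ≤ H - kap`, `H` the essential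
supremum of `f` with respect to the nonnegative density `k`, forces `z` to be real. -/
theorem nr_main {Ω Ω' : Type*} [MeasurableSpace Ω] [MeasurableSpace Ω']
    (m : Measure Ω) (m' : Measure Ω') (p q : Ω → ℝ) (D : Ω → ℂ) (f k : Ω' → ℝ)
    (hp : AEMeasurable p m) (hq : AEMeasurable q m) (hf : AEMeasurable f m')
    (hD : Integrable D m) (hk : Integrable k m') (hk0 : 0 ≤ᵐ[m'] k)
    (R H kap : ℝ) (hkap : 0 < kap)
    (hpR : ∀ᵐ x ∂m, |p x| ≤ R) (hqR : ∀ᵐ x ∂m, |q x| ≤ R) (hfR : ∀ᵐ y ∂m', |f y| ≤ R)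
    (hqH : ∀ᵐ x ∂m, q x ≤ H - kap) (hfH : ∀ᵐ y ∂m', f y ≤ H)
    (hH : ∀ e : ℝ, 0 < e → 0 < ∫ y in {y | H - e < f y}, k y ∂m')
    (z : ℂ)
    (hmom : ∀ j : ℕ, ∫ x, (z * (p x : ℂ) + (q x : ℂ)) ^ j * D x ∂m
      = ∫ y, ((f y : ℝ) : ℂ) ^ j * ((k y : ℝ) : ℂ) ∂m') :
    z.im = 0 := by
  by_contra hz
  set om : ℂ := (z.im : ℂ) * Complex.I * (starRingEnd ℂ) z with hom
  have hre : om.re = z.im ^ 2 := by
    simp [hom, Complex.mul_re, Complex.mul_im]
    ring
  have hre0 : 0 < om.re := by rw [hre]; positivity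
  have hom0 : om ≠ 0 := by
    intro h
    rw [h] at hre0
    simp at hre0
  have hn0 : 0 < ‖om‖ := norm_pos_iff.2 hom0
  have homz : ∀ t : ℝ, (om * (z * (t : ℂ))).re = 0 := by
    intro t
    simp [hom, Complex.mul_re, Complex.mul_im]
    ring
  set del : ℝ := kap * om.re / ‖om‖ with hdel
  have hdel0 : 0 < del := by positivity
  set W : Ω → ℂ := fun x => z * (p x : ℂ) + (q x : ℂ) with hWdef
  set x0 : ℂ := ((H + del / 4 : ℝ) : ℂ) with hx0
  have hWH : ∀ᵐ x ∂m, (om * (W x - (H : ℂ))).re ≤ -(om.re * kap) := by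
    filter_upwards [hqH] with x hx
    have e : om * (W x - (H : ℂ)) = om * (z * (p x : ℂ)) + om * ((q x - H : ℝ) : ℂ) := by
      simp only [hWdef]
      push_cast
      ring
    rw [e, Complex.add_re, homz, Complex.re_mul_ofReal]
    nlinarith
  have hWd : ∀ᵐ x ∂m, del ≤ ‖W x - (H : ℂ)‖ := by
    filter_upwards [hWH] with x hx
    have h1 : |(om * (W x - (H : ℂ))).re| ≤ ‖om‖ * ‖W x - (H : ℂ)‖ := by
      rw [← norm_mul]; exact Complex.abs_re_le_norm _
    have h2 : om.re * kap ≤ ‖om‖ * ‖W x - (H : ℂ)‖ := by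
      refine le_trans ?_ h1
      rw [abs_of_nonpos (by nlinarith)]
      linarith
    rw [hdel, div_le_iff₀ hn0]
    linarith
  have hWx0 : ∀ᵐ x ∂m, 3 * del / 4 ≤ ‖x0 - W x‖ := by
    filter_upwards [hWd] with x hx
    have h1 : ‖W x - (H : ℂ)‖ ≤ ‖x0 - W x‖ + ‖x0 - (H : ℂ)‖ := by
      have e : W x - (H : ℂ) = -(x0 - W x) + (x0 - (H : ℂ)) := by ring
      calc ‖W x - (H : ℂ)‖ = ‖-(x0 - W x) + (x0 - (H : ℂ))‖ := by rw [← e]
        _ ≤ ‖-(x0 - W x)‖ + ‖x0 - (H : ℂ)‖ := norm_add_le _ _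
        _ = _ := by rw [norm_neg]
    have h2 : ‖x0 - (H : ℂ)‖ = del / 4 := by
      have e : x0 - (H : ℂ) = ((del / 4 : ℝ) : ℂ) := by
        rw [hx0]; push_cast; ring
      rw [e, Complex.norm_real, Real.norm_of_nonneg (by positivity)]
    linarith
  set kap0 : ℝ := om.re * min kap (del / 4) with hkap0
  have hkap00 : 0 < kap0 := mul_pos hre0 (lt_min hkap (by positivity))
  set R' : ℝ := ‖z‖ * |R| + |R| + ‖x0‖ with hR'
  obtain ⟨c, r, hc, hr0, hr1, hdisc⟩ := nr_disc om x0 kap0 R' hkap00 hom0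
  have hWdisc : ∀ᵐ x ∂m, ‖W x - c‖ ≤ r * ‖x0 - c‖ := by
    filter_upwards [hWH, hpR, hqR] with x h1 h2 h3
    refine hdisc _ ?_ ?_
    · calc ‖W x - x0‖ ≤ ‖W x‖ + ‖x0‖ := norm_sub_le _ _
        _ ≤ ‖z * (p x : ℂ)‖ + ‖(q x : ℂ)‖ + ‖x0‖ := by gcongr; exact norm_add_le _ _
        _ = ‖z‖ * |p x| + |q x| + ‖x0‖ := by
            rw [norm_mul, Complex.norm_real, Complex.norm_real, Real.norm_eq_abs,
              Real.norm_eq_abs]
        _ ≤ _ := by
            rw [hR']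
            have h4 := h2.trans (le_abs_self R)
            have h5 := h3.trans (le_abs_self R)
            gcongr
    · have e : om * (W x - x0) = om * (W x - (H : ℂ)) + om * ((-(del / 4) : ℝ) : ℂ) := by
        rw [hx0]; push_cast; ring
      rw [e, Complex.add_re, Complex.re_mul_ofReal, hkap0]
      have h4 : min kap (del / 4) ≤ kap := min_le_left _ _
      have h5 : om.re * min kap (del / 4) ≤ om.re * kap := by gcongr
      nlinarith
  have hfdisc : ∀ᵐ y ∂m', ‖((f y : ℝ) : ℂ) - c‖ ≤ r * ‖x0 - c‖ := by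
    filter_upwards [hfR, hfH] with y h1 h2
    refine hdisc _ ?_ ?_
    · calc ‖((f y : ℝ) : ℂ) - x0‖ ≤ ‖((f y : ℝ) : ℂ)‖ + ‖x0‖ := norm_sub_le _ _
        _ = |f y| + ‖x0‖ := by rw [Complex.norm_real, Real.norm_eq_abs]
        _ ≤ _ := by
            rw [hR']
            have := le_abs_self R
            have : 0 ≤ ‖z‖ * |R| := by positivity
            linarith
    · have e : om * (((f y : ℝ) : ℂ) - x0) = om * ((f y - H - del / 4 : ℝ) : ℂ) := by
        rw [hx0]; push_cast; ring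
      rw [e, Complex.re_mul_ofReal, hkap0]
      have h4 : min kap (del / 4) ≤ del / 4 := min_le_right _ _
      have h5 : om.re * min kap (del / 4) ≤ om.re * (del / 4) := by gcongr
      nlinarith
  have hWm : AEMeasurable W m := by
    refine AEMeasurable.add (AEMeasurable.const_mul ?_ _) ?_
    · exact Complex.measurable_ofReal.comp_aemeasurable hp
    · exact Complex.measurable_ofReal.comp_aemeasurable hq
  have hfm : AEMeasurable (fun y => ((f y : ℝ) : ℂ)) m' :=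
    Complex.measurable_ofReal.comp_aemeasurable hf
  have hkm : Integrable (fun y => ((k y : ℝ) : ℂ)) m' := hk.ofReal
  -- integrability of bounded multiples
  have hbW : ∀ P : Polynomial ℂ, Integrable (fun x => P.eval (W x) * D x) m := by
    intro P
    obtain ⟨K, hK0, hK⟩ := poly_bound P (‖c‖ + r * ‖x0 - c‖)
    refine hD.bdd_mul (c := K) ?_ ?_
    · exact ((Polynomial.continuous _).comp_aestronglyMeasurable hWm.aestronglyMeasurable)
    · filter_upwards [hWdisc] with x hx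
      refine hK _ ?_
      calc ‖W x‖ = ‖c + (W x - c)‖ := by ring_nf
        _ ≤ ‖c‖ + ‖W x - c‖ := norm_add_le _ _
        _ ≤ _ := by linarith
  have hbf : ∀ P : Polynomial ℂ, Integrable (fun y => P.eval ((f y : ℝ) : ℂ) * ((k y : ℝ) : ℂ)) m'
      := by
    intro P
    obtain ⟨K, hK0, hK⟩ := poly_bound P (‖c‖ + r * ‖x0 - c‖)
    refine hkm.bdd_mul (c := K) ?_ ?_
    · exact ((Polynomial.continuous _).comp_aestronglyMeasurable hfm.aestronglyMeasurable)
    · filter_upwards [hfdisc] with x hx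
      refine hK _ ?_
      calc ‖((f x : ℝ) : ℂ)‖ = ‖c + (((f x : ℝ) : ℂ) - c)‖ := by ring_nf
        _ ≤ ‖c‖ + ‖((f x : ℝ) : ℂ) - c‖ := norm_add_le _ _
        _ ≤ _ := by linarith
  have hpoly : ∀ P : Polynomial ℂ, ∫ x, P.eval (W x) * D x ∂m
      = ∫ y, P.eval ((f y : ℝ) : ℂ) * ((k y : ℝ) : ℂ) ∂m' := by
    intro P
    induction P using Polynomial.induction_on' with
    | add P Q hP hQ =>
      simp only [Polynomial.eval_add, add_mul]
      rw [integral_add (hbW P) (hbW Q), integral_add (hbf P) (hbf Q), hP, hQ]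
    | monomial j a =>
      simp only [Polynomial.eval_monomial, mul_assoc]
      rw [integral_const_mul, integral_const_mul, hmom j]
  have hfin := nr_step m m' W D (fun y => ((f y : ℝ) : ℂ)) (fun y => ((k y : ℝ) : ℂ)) hWm hfm hD
    hkm x0 c r hr0 hr1 hWdisc hfdisc hc hpoly
  -- the two bounds
  set M : ℝ := ∫ x, ‖D x‖ ∂m with hM
  set cc : ℝ := ∫ y in {y | H - del / 4 < f y}, k y ∂m' with hcc
  have hcc0 : 0 < cc := hH _ (by positivity)
  have key : ∀ j : ℕ, (2 / del) ^ j * cc ≤ (4 / (3 * del)) ^ j * M := by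
    intro j
    have h1 := hfin j 1
    simp only [Polynomial.eval_one, one_mul] at h1
    have h2 : ‖∫ x, (x0 - W x)⁻¹ ^ j * D x ∂m‖ ≤ (4 / (3 * del)) ^ j * M := by
      rw [hM, ← integral_const_mul]
      refine norm_integral_le_of_norm_le (hD.norm.const_mul _) ?_
      filter_upwards [hWx0] with x hx
      rw [norm_mul, norm_pow, norm_inv]
      gcongr
      rw [show 4 / (3 * del) = (3 * del / 4)⁻¹ by rw [inv_div]]
      exact inv_anti₀ (by positivity) hx
    have h3 : ∫ y, (x0 - ((f y : ℝ) : ℂ))⁻¹ ^ j * ((k y : ℝ) : ℂ) ∂m'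
        = ((∫ y, (H + del / 4 - f y)⁻¹ ^ j * k y ∂m' : ℝ) : ℂ) := by
      rw [← integral_complex_ofReal]
      refine integral_congr_ae (Eventually.of_forall fun y => ?_)
      simp only [hx0]
      push_cast
      ring
    have h4int : Integrable (fun y => (H + del / 4 - f y)⁻¹ ^ j * k y) m' := by
      refine hk.bdd_mul (c := (4 / del) ^ j) ?_ ?_
      · exact (((aemeasurable_const.sub hf).inv).pow_const j).aestronglyMeasurable
      · filter_upwards [hfH] with y hy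
        rw [norm_pow, norm_inv, Real.norm_of_nonneg (by linarith)]
        refine pow_le_pow_left₀ (inv_nonneg.2 (by linarith)) ?_ j
        rw [show 4 / del = (del / 4)⁻¹ by rw [inv_div]]
        exact inv_anti₀ (by positivity) (by linarith)
    have h4 : (2 / del) ^ j * cc ≤ ∫ y, (H + del / 4 - f y)⁻¹ ^ j * k y ∂m' := by
      have h5 : ∫ y in {y | H - del / 4 < f y}, (H + del / 4 - f y)⁻¹ ^ j * k y ∂m'
          ≤ ∫ y, (H + del / 4 - f y)⁻¹ ^ j * k y ∂m' := by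
        refine setIntegral_le_integral h4int ?_
        filter_upwards [hfH, hk0] with y h6 h7
        have : 0 ≤ (H + del / 4 - f y)⁻¹ := inv_nonneg.2 (by linarith)
        exact mul_nonneg (pow_nonneg this _) h7
      refine le_trans ?_ h5
      rw [hcc, ← integral_const_mul]
      refine integral_mono_ae (hk.integrableOn.const_mul _) h4int.integrableOn ?_
      have hnull : NullMeasurableSet {y | H - del / 4 < f y} m' :=
        nullMeasurableSet_lt aemeasurable_const hf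
      refine (ae_restrict_iff'₀ hnull).2 ?_
      filter_upwards [hfH, hk0] with y h6 h7 h8
      refine mul_le_mul_of_nonneg_right ?_ h7
      refine pow_le_pow_left₀ (by positivity) ?_ j
      rw [show 2 / del = (del / 2)⁻¹ by rw [inv_div]]
      have h8' : H - del / 4 < f y := h8
      exact inv_anti₀ (by linarith) (by linarith)
    calc (2 / del) ^ j * cc ≤ ∫ y, (H + del / 4 - f y)⁻¹ ^ j * k y ∂m' := h4
      _ ≤ |∫ y, (H + del / 4 - f y)⁻¹ ^ j * k y ∂m'| := le_abs_self _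
      _ = ‖∫ x, (x0 - W x)⁻¹ ^ j * D x ∂m‖ := by
          rw [h1, h3, Complex.norm_real, Real.norm_eq_abs]
      _ ≤ _ := h2
  have hlim : Tendsto (fun j : ℕ => (2 / 3 : ℝ) ^ j * M) atTop (𝓝 (0 * M)) :=
    (tendsto_pow_atTop_nhds_zero_of_lt_one (by norm_num) (by norm_num)).mul_const M
  rw [zero_mul] at hlim
  have : cc ≤ 0 := by
    refine ge_of_tendsto' hlim fun j => ?_
    have h1 := key j
    have h2 : (4 / (3 * del)) ^ j = (2 / del) ^ j * (2 / 3 : ℝ) ^ j := by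
      rw [← mul_pow]; congr 1; field_simp; norm_num
    rw [h2, mul_assoc] at h1
    exact le_of_mul_le_mul_left h1 (by positivity)
  linarith

end Pool.Agent.BAN.H68
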