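import Mathlib

/-!
Real common zeros: a moment identity for all polynomials in several variables is impossible
if the left side misses an open set which the right side charges.
-/

namespace Pool.Agent.BAN.H68

open MeasureTheory Filter Topology

/-- multivariate Weierstrass on a ball -/
theorem weier (n : ℕ) (R : ℝ) (f : EuclideanSpace ℝ (Fin n) → ℝ) (hf : Continuous f) (e : ℝ)
    (he : 0 < e) : ∃ P : MvPolynomial (Fin n) ℝ, ∀ y : EuclideanSpace ℝ (Fin n), ‖y‖ ≤ R →
      |MvPolynomial.eval (fun i => y i) P - f y| < e := by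
  set X := Metric.closedBall (0 : EuclideanSpace ℝ (Fin n)) R with hX
  have hXc : CompactSpace X := isCompact_iff_compactSpace.1 (isCompact_closedBall _ _)
  let co : Fin n → C(X, ℝ) := fun i => ⟨fun x => x.1 i, by fun_prop⟩
  let φ : MvPolynomial (Fin n) ℝ →ₐ[ℝ] C(X, ℝ) := MvPolynomial.aeval co
  have hφ : ∀ (P : MvPolynomial (Fin n) ℝ) (x : X),
      φ P x = MvPolynomial.eval (fun i => x.1 i) P := by
    intro P x
    induction P using MvPolynomial.induction_on with
    | C a => simp [φ]
    | add p q hp hq => rw [map_add, map_add, ContinuousMap.add_apply, hp, hq]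
    | mul_X p i hp =>
      rw [map_mul, map_mul, ContinuousMap.mul_apply, hp]
      simp [φ, co]
  have hsep : φ.range.SeparatesPoints := by
    intro x y hxy
    obtain ⟨i, hi⟩ : ∃ i, x.1 i ≠ y.1 i := by
      by_contra hcon
      push Not at hcon
      exact hxy (Subtype.ext (PiLp.ext hcon))
    refine ⟨fun z => z.1 i, ?_, hi⟩
    refine ⟨φ (MvPolynomial.X i), ⟨MvPolynomial.X i, rfl⟩, ?_⟩
    funext z
    show φ (MvPolynomial.X i) z = _
    rw [hφ]
    simp
  obtain ⟨g, hg⟩ := ContinuousMap.exists_mem_subalgebra_near_continuous_of_separatesPoints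
    φ.range hsep (fun x : X => f x.1) (by fun_prop) e he
  obtain ⟨P, hP⟩ := g.2
  refine ⟨P, fun y hy => ?_⟩
  have := hg ⟨y, by simpa [hX] using hy⟩
  have hP' : φ P = (g : C(X, ℝ)) := hP
  rw [← hP', hφ, Real.norm_eq_abs] at this
  exact this

theorem re_main {Ω : Type*} [MeasurableSpace Ω] (m : Measure Ω) (n : ℕ)
    (m' : Measure (EuclideanSpace ℝ (Fin n)))
    (G : Ω → EuclideanSpace ℝ (Fin n)) (D : Ω → ℝ) (k : EuclideanSpace ℝ (Fin n) → ℝ)
    (hD : Integrable D m) (hk : Integrable k m') (hk0 : ∀ y, 0 ≤ k y)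
    (R : ℝ) (hGR : ∀ᵐ x ∂m, D x ≠ 0 → ‖G x‖ ≤ R) (hkR : ∀ y, k y ≠ 0 → ‖y‖ ≤ R)
    (U : Set (EuclideanSpace ℝ (Fin n))) (hU : IsOpen U)
    (hUG : ∀ᵐ x ∂m, G x ∈ U → D x = 0) (hUk : 0 < ∫ y in U, k y ∂m')
    (hmom : ∀ P : MvPolynomial (Fin n) ℝ,
      ∫ x, MvPolynomial.eval (fun i => G x i) P * D x ∂m
        = ∫ y, MvPolynomial.eval (fun i => y i) P * k y ∂m') : False := by
  set f : EuclideanSpace ℝ (Fin n) → ℝ := fun y => min 1 (Metric.infDist y Uᶜ) with hf
  have hfc : Continuous f := continuous_const.min (Metric.continuous_infDist_pt _)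
  have hf0 : ∀ y, 0 ≤ f y := fun y => le_min zero_le_one Metric.infDist_nonneg
  have hf1 : ∀ y, f y ≤ 1 := fun y => min_le_left _ _
  have hfU : ∀ y, y ∉ U → f y = 0 := by
    intro y hy
    have : Metric.infDist y Uᶜ = 0 := Metric.infDist_zero_of_mem (by simpa using hy)
    simp [hf, this]
  -- either `U` is everything or `f > 0` on `U`
  have hex : ∃ f : EuclideanSpace ℝ (Fin n) → ℝ, Continuous f ∧ (∀ y, 0 ≤ f y) ∧ (∀ y, f y ≤ 1) ∧
      (∀ y, y ∉ U → f y = 0) ∧ ∀ y ∈ U, 0 < f y := by
    by_cases hUe : (Uᶜ).Nonempty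
    · refine ⟨f, hfc, hf0, hf1, hfU, fun y hy => lt_min one_pos ?_⟩
      have hcl : IsClosed Uᶜ := hU.isClosed_compl
      exact (hcl.notMem_iff_infDist_pos hUe).1 (by simpa using hy)
    · refine ⟨fun _ => 1, continuous_const, fun _ => zero_le_one, fun _ => le_rfl, ?_, ?_⟩
      · intro y hy
        exact absurd ⟨y, hy⟩ hUe
      · intro y _; exact one_pos
  clear_value f
  clear hf hfc hf0 hf1 hfU f
  obtain ⟨f, hfc, hf0, hf1, hfU, hfp⟩ := hex
  have hfk : Integrable (fun y => f y * k y) m' := by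
    refine hk.bdd_mul (c := 1) hfc.aestronglyMeasurable (Eventually.of_forall fun y => ?_)
    rw [Real.norm_of_nonneg (hf0 y)]
    exact hf1 y
  have hpos : 0 < ∫ y, f y * k y ∂m' := by
    rcases (integral_nonneg (fun y => mul_nonneg (hf0 y) (hk0 y)) :
      0 ≤ ∫ y, f y * k y ∂m').lt_or_eq with h | h
    · exact h
    · exfalso
      have h1 := (integral_eq_zero_iff_of_nonneg (fun y => mul_nonneg (hf0 y) (hk0 y)) hfk).1 h.symm
      have h2 : ∫ y in U, k y ∂m' = 0 := by
        refine integral_eq_zero_of_ae ?_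
        have h3 := ae_restrict_of_ae (s := U) h1
        have h4 : ∀ᵐ y ∂(m'.restrict U), y ∈ U := ae_restrict_mem hU.measurableSet
        filter_upwards [h3, h4] with y h5 h6
        have h5' : f y * k y = 0 := h5
        rcases mul_eq_zero.1 h5' with h7 | h7
        · exact absurd h7 (hfp y h6).ne'
        · exact h7
      linarith
  have hK : 0 ≤ ∫ x, |D x| ∂m := integral_nonneg fun x => abs_nonneg _
  have hK' : 0 ≤ ∫ y, k y ∂m' := integral_nonneg fun y => hk0 y
  set c : ℝ := ∫ y, f y * k y ∂m' with hc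
  set M : ℝ := ∫ x, |D x| ∂m + ∫ y, k y ∂m' with hM
  have hM0 : 0 ≤ M := add_nonneg hK hK'
  obtain ⟨P, hP⟩ := weier n R f hfc (c / (2 * (M + 1))) (by positivity)
  set e : ℝ := c / (2 * (M + 1)) with he
  have he0 : 0 < e := by positivity
  have h1 : ‖∫ x, MvPolynomial.eval (fun i => G x i) P * D x ∂m‖ ≤ e * ∫ x, |D x| ∂m := by
    rw [← integral_const_mul]
    refine norm_integral_le_of_norm_le (hD.abs.const_mul _) ?_
    filter_upwards [hGR, hUG] with x h2 h3
    rw [norm_mul, Real.norm_eq_abs, Real.norm_eq_abs]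
    by_cases h4 : D x = 0
    · simp [h4]
    · have h5 : f (G x) = 0 := hfU _ fun h => h4 (h3 h)
      have h6 := hP (G x) (h2 h4)
      rw [h5, sub_zero] at h6
      exact mul_le_mul_of_nonneg_right h6.le (abs_nonneg _)
  have hPk : Integrable (fun y => MvPolynomial.eval (fun i => y i) P * k y) m' := by
    have h2 : Integrable (fun y => (MvPolynomial.eval (fun i => y i) P - f y) * k y) m' := by
      refine Integrable.mono' (hk.const_mul e) ?_ (Eventually.of_forall fun y => ?_)
      · refine AEStronglyMeasurable.mul ?_ hk.aestronglyMeasurable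
        refine Continuous.aestronglyMeasurable ?_
        exact ((MvPolynomial.continuous_eval P).comp (by fun_prop)).sub hfc
      · rw [norm_mul, Real.norm_eq_abs, Real.norm_of_nonneg (hk0 y)]
        by_cases h4 : k y = 0
        · simp [h4]
        · exact mul_le_mul_of_nonneg_right (hP y (hkR y h4)).le (hk0 y)
    refine (h2.add hfk).congr (Eventually.of_forall fun y => ?_)
    simp only [Pi.add_apply]
    ring
  have h2 : c - e * ∫ y, k y ∂m' ≤ ∫ y, MvPolynomial.eval (fun i => y i) P * k y ∂m' := by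
    rw [hc, ← integral_const_mul, ← integral_sub hfk (hk.const_mul e)]
    refine integral_mono (hfk.sub (hk.const_mul e)) hPk fun y => ?_
    by_cases h4 : k y = 0
    · simp [h4]
    · have h5 := abs_lt.1 (hP y (hkR y h4))
      have h6 := hk0 y
      simp only
      nlinarith
  have h3 : c ≤ e * M := by
    have h4 := hmom P
    have h5 := le_abs_self (∫ y, MvPolynomial.eval (fun i => y i) P * k y ∂m')
    rw [← h4, ← Real.norm_eq_abs] at h5
    rw [← h4] at h2
    rw [hM]
    nlinarith
  have h4 : e * M < c := by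
    rw [he, div_mul_eq_mul_div, div_lt_iff₀ (by positivity)]
    nlinarith
  linarith

end Pool.Agent.BAN.H68
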