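import Pool.Agent.Helper68_BAN.Ana2a
import Pool.Agent.Helper68_BAN.NR
import Pool.Agent.Helper68_BAN.RE
import Pool.Agent.Helper41_Ban.Alg

set_option autoImplicit false

namespace Pool.Agent.BAN.H68

open MeasureTheory Filter Topology Set
open scoped NNReal Polynomial

/-- all hypotheses of ANA2 -/
structure AD {n : ℕ} (g : EuclideanSpace ℝ (Fin (n + 1)) → ℝ) (f : ℝ → ℝ → ℝ)
    (A B C Q : EuclideanSpace ℝ (Fin (n + 1)) → EuclideanSpace ℝ (Fin (n + 1)))
    (w : EuclideanSpace ℝ (Fin (n + 1)) → ℝ) (L : ℝ≥0) (c β : ℝ)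
    (S : Set (EuclideanSpace ℝ (Fin (n + 1)))) : Prop where
  hc : 0 < c
  hβ : β < 1
  hg : Gau g
  hfpos : ∀ p q : ℝ, (p ≠ 0 ∨ q ≠ 0) → 0 < f p q
  hfhom : ∀ t p q : ℝ, 0 ≤ t → f (t * p) (t * q) = t * f p q
  hfsub : ∀ p q p' q' : ℝ, f (p + p') (q + q') ≤ f p q + f p' q'
  hAL : LipschitzWith L A
  hBL : LipschitzWith L B
  hCL : LipschitzWith L C
  hQL : LipschitzWith L Q
  hA0 : A 0 = 0
  hB0 : B 0 = 0
  hC0 : C 0 = 0
  hQ0 : Q 0 = 0
  hQA : ∀ x, inner ℝ (Q x) (A x) = 0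
  hQB : ∀ x, inner ℝ (Q x) (B x) = 0
  hQC : ∀ x, inner ℝ (Q x) (C x) = 0
  hQ : ∀ x, c * ‖x‖ ^ 2 ≤ inner ℝ x (Q x)
  hwc : Continuous w
  hw0 : ∀ x, 0 ≤ w x
  hSm : MeasurableSet S
  hSw : ∀ x ∈ S, c * ‖x‖ ≤ w x
  hup : ∀ (x : EuclideanSpace ℝ (Fin (n + 1))) (p q : ℝ), f p q ≤ 1 →
      g (p • A x + q • B x + C x) ≤ w x * (f p q + (1 - f p q) * β)
  hlow : ∀ (x : EuclideanSpace ℝ (Fin (n + 1))) (p q : ℝ), 1 ≤ f p q →
      w x * (f p q + (1 - f p q) * β) ≤ g (p • A x + q • B x + C x)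
  hnull : ∀ ε p q : ℝ, 0 < ε → f p q = 1 →
      (volume : Measure (EuclideanSpace ℝ (Fin (n + 1))))
        ((fun x => ε • Q x + (p • A x + q • B x + C x)) '' Sᶜ) = 0

section

variable {n : ℕ} {g : EuclideanSpace ℝ (Fin (n + 1)) → ℝ} {f : ℝ → ℝ → ℝ}
    {A B C Q : EuclideanSpace ℝ (Fin (n + 1)) → EuclideanSpace ℝ (Fin (n + 1))}
    {w : EuclideanSpace ℝ (Fin (n + 1)) → ℝ} {L : ℝ≥0} {c β : ℝ}
    {S : Set (EuclideanSpace ℝ (Fin (n + 1)))}

/-- the map `G = r (A + t B) + C` -/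
noncomputable def GG (A B C : EuclideanSpace ℝ (Fin (n + 1)) → EuclideanSpace ℝ (Fin (n + 1)))
    (t r : ℝ) (x : EuclideanSpace ℝ (Fin (n + 1))) : EuclideanSpace ℝ (Fin (n + 1)) :=
  r • A x + (r * t) • B x + C x

theorem f_zero (h : AD g f A B C Q w L c β S) : f 0 0 = 0 := by
  have := h.hfhom 0 0 0 le_rfl
  simpa using this

theorem f_nonneg (h : AD g f A B C Q w L c β S) (p q : ℝ) : 0 ≤ f p q := by
  by_cases hpq : p ≠ 0 ∨ q ≠ 0
  · exact (h.hfpos p q hpq).le
  · push Not at hpq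
    rw [hpq.1, hpq.2, f_zero h]

theorem GG_lip (h : AD g f A B C Q w L c β S) (t r : ℝ) :
    ∃ M : ℝ≥0, LipschitzWith M (GG A B C t r) := by
  exact ⟨_, ((((lipschitzWith_smul r).comp h.hAL).add
    ((lipschitzWith_smul (r * t)).comp h.hBL)).add h.hCL)⟩

/-- the bounded region of integration -/
def TT (w : EuclideanSpace ℝ (Fin (n + 1)) → ℝ) (S : Set (EuclideanSpace ℝ (Fin (n + 1)))) :
    Set (EuclideanSpace ℝ (Fin (n + 1))) := S ∩ {x | w x ≤ 1}

theorem TT_meas (h : AD g f A B C Q w L c β S) : MeasurableSet (TT w S) :=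
  h.hSm.inter (measurableSet_le h.hwc.measurable measurable_const)

theorem TT_sub (h : AD g f A B C Q w L c β S) :
    TT w S ⊆ Metric.closedBall (0 : EuclideanSpace ℝ (Fin (n + 1))) (1 / c) := by
  rintro x ⟨h1, h2⟩
  have h3 := h.hSw x h1
  have h2' : w x ≤ 1 := h2
  rw [mem_closedBall_zero_iff, le_div_iff₀ h.hc]
  linarith

theorem TT_fin (h : AD g f A B C Q w L c β S) :
    IsFiniteMeasure ((volume : Measure (EuclideanSpace ℝ (Fin (n + 1)))).restrict (TT w S)) := by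
  refine ⟨?_⟩
  rw [Measure.restrict_apply_univ]
  exact lt_of_le_of_lt (measure_mono (TT_sub h))
    (isCompact_closedBall _ _).measure_lt_top

/-- integrals over `S` with the cut-off are integrals over the bounded region -/
theorem int_TT {F : Type} [NormedAddCommGroup F] [NormedSpace ℝ F]
    (h : AD g f A B C Q w L c β S)
    (u : EuclideanSpace ℝ (Fin (n + 1)) → F) (hu : ∀ x, cut (w x) = 0 → u x = 0) :
    ∫ x in S, u x = ∫ x in TT w S, u x := by
  refine setIntegral_eq_of_subset_of_forall_sdiff_eq_zero h.hSm inter_subset_left ?_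
  rintro x ⟨h1, h2⟩
  refine hu x (cut_eq_zero (Or.inr ?_))
  by_contra hcon
  exact h2 ⟨h1, (not_le.1 hcon).le⟩

/-- real form of the integrand -/
theorem real_form (h : AD g f A B C Q w L c β S) (t r : ℝ)
    (ψ : MvPolynomial (Fin (n + 1)) ℝ) :
    ∫ x in S, MvPolynomial.aeval
        (fun i => (r : ℂ) * (((A x) i + t * (B x) i : ℝ) : ℂ) + (((C x) i : ℝ) : ℂ)) ψ
        * ((cut (w x) : ℝ) : ℂ) * cdet A B C t (r : ℂ) x
      = ((∫ x in S, MvPolynomial.eval (fun i => (GG A B C t r x) i) ψ *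
          (cut (w x) * (fderiv ℝ (GG A B C t r) x).det) : ℝ) : ℂ) := by
  rw [← integral_complex_ofReal]
  refine integral_congr_ae ?_
  filter_upwards [ae_restrict_of_ae (s := S) (cdet_real h.hAL h.hBL h.hCL t r)] with x hx
  rw [hx]
  have h1 : MvPolynomial.aeval
        (fun i => (r : ℂ) * (((A x) i + t * (B x) i : ℝ) : ℂ) + (((C x) i : ℝ) : ℂ)) ψ
      = ((MvPolynomial.eval (fun i => (GG A B C t r x) i) ψ : ℝ) : ℂ) := by
    have h2 : (fun i => (r : ℂ) * (((A x) i + t * (B x) i : ℝ) : ℂ) + (((C x) i : ℝ) : ℂ))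
        = algebraMap ℝ ℂ ∘ fun i => (GG A B C t r x) i := by
      funext i
      simp only [GG, Function.comp, PiLp.add_apply, PiLp.smul_apply, smul_eq_mul, Complex.coe_algebraMap]
      push_cast
      ring
    rw [h2, MvPolynomial.aeval_algebraMap_apply]
    rfl
  rw [h1]
  have h3 : GG A B C t r = fun y => r • A y + (r * t) • B y + C y := rfl
  rw [h3]
  push_cast
  ring

/-- the value of `g` on `G` when `f = 1` -/
theorem g_eq (h : AD g f A B C Q w L c β S) (t r : ℝ) (hf : f r (r * t) = 1)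
    (x : EuclideanSpace ℝ (Fin (n + 1))) : g (GG A B C t r x) = w x := by
  have h1 := h.hup x r (r * t) hf.le
  have h2 := h.hlow x r (r * t) hf.ge
  rw [hf] at h1 h2
  refine le_antisymm ?_ ?_
  · simpa [GG] using h1
  · simpa [GG] using h2

/-- the continuous compactly supported test function -/
theorem test_cont (hg : Gau g) (ψ : MvPolynomial (Fin (n + 1)) ℝ) :
    Continuous fun y : EuclideanSpace ℝ (Fin (n + 1)) =>
      MvPolynomial.eval (fun i => y i) ψ * cut (g y) := by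
  refine Continuous.mul ?_ (cut_cont.comp (gau_cont hg))
  exact (MvPolynomial.continuous_eval ψ).comp (by fun_prop)

theorem test_supp (hg : Gau g) (ψ : MvPolynomial (Fin (n + 1)) ℝ) :
    HasCompactSupport fun y : EuclideanSpace ℝ (Fin (n + 1)) =>
      MvPolynomial.eval (fun i => y i) ψ * cut (g y) := by
  obtain ⟨cg, hcg, hb⟩ := gau_lower hg
  refine HasCompactSupport.intro (isCompact_closedBall 0 (1 / cg)) fun y hy => ?_
  have h1 : 1 ≤ g y := by
    rw [mem_closedBall_zero_iff, not_le, div_lt_iff₀ hcg] at hy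
    have := hb y
    linarith
  rw [cut_eq_zero (Or.inr h1), mul_zero]

/-- (A): the identity at the two zeros -/
theorem at_zero (hLIM : LIMStmt) (h : AD g f A B C Q w L c β S) (t r : ℝ)
    (hf : f r (r * t) = 1) (ψ : MvPolynomial (Fin (n + 1)) ℝ) :
    ∫ x in S, MvPolynomial.eval (fun i => (GG A B C t r x) i) ψ *
          (cut (w x) * (fderiv ℝ (GG A B C t r) x).det)
      = ∫ y, MvPolynomial.eval (fun i => y i) ψ * cut (g y) := by
  obtain ⟨M, hM⟩ := GG_lip h t r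
  obtain ⟨Cg, hCg, hgb⟩ := gau_upper h.hg
  have hmaxQ : LipschitzWith (max L M) Q := h.hQL.weaken (le_max_left _ _)
  have hmaxG : LipschitzWith (max L M) (GG A B C t r) := hM.weaken (le_max_right _ _)
  have hc' : 0 < min c (c / Cg) := lt_min h.hc (div_pos h.hc hCg)
  have := hLIM (EuclideanSpace ℝ (Fin (n + 1))) volume Q (GG A B C t r) (max L M)
    (min c (c / Cg)) S hc' hmaxQ hmaxG h.hQ0 (by simp [GG, h.hA0, h.hB0, h.hC0])
    (fun x => by
      simp only [GG, inner_add_right, inner_smul_right, h.hQA, h.hQB, h.hQC]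
      simp)
    (fun x => le_trans (by gcongr; exact min_le_left _ _) (h.hQ x)) h.hSm
    (fun x hx => by
      have h1 := h.hSw x hx
      have h2 := hgb (GG A B C t r x)
      rw [g_eq h t r hf x] at h2
      calc min c (c / Cg) * ‖x‖ ≤ (c / Cg) * ‖x‖ := by gcongr; exact min_le_right _ _
        _ = (c * ‖x‖) / Cg := by ring
        _ ≤ ‖GG A B C t r x‖ := by
            rw [div_le_iff₀ hCg]
            linarith)
    (fun ε hε => h.hnull ε r (r * t) hε hf)
    _ (test_cont h.hg ψ) (test_supp h.hg ψ)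
  rw [← this]
  refine setIntegral_congr_fun h.hSm fun x _ => ?_
  simp only
  rw [g_eq h t r hf x]
  ring

end

end Pool.Agent.BAN.H68
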