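import Pool.Agent.Helper68_BAN.Ana2b

set_option autoImplicit false

namespace Pool.Agent.BAN.H68

open MeasureTheory Filter Topology Set
open scoped NNReal Polynomial

section

variable {n : ℕ} {g : EuclideanSpace ℝ (Fin (n + 1)) → ℝ} {f : ℝ → ℝ → ℝ}
    {A B C Q : EuclideanSpace ℝ (Fin (n + 1)) → EuclideanSpace ℝ (Fin (n + 1))}
    {w : EuclideanSpace ℝ (Fin (n + 1)) → ℝ} {L : ℝ≥0} {c β : ℝ}
    {S : Set (EuclideanSpace ℝ (Fin (n + 1)))}

theorem cutg_int (hg : Gau g) :
    Integrable (fun y => cut (g y)) (volume : Measure (EuclideanSpace ℝ (Fin (n + 1)))) := by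
  have h1 := test_cont hg (1 : MvPolynomial (Fin (n + 1)) ℝ)
  have h2 := test_supp hg (1 : MvPolynomial (Fin (n + 1)) ℝ)
  have := h1.integrable_of_hasCompactSupport (μ := volume) h2
  simpa using this

/-- an open shell of the gauge has positive `cut ∘ g` mass -/
theorem shell_pos (hg : Gau g) (U : Set (EuclideanSpace ℝ (Fin (n + 1)))) (hU : IsOpen U)
    (y0 : EuclideanSpace ℝ (Fin (n + 1))) (h0 : y0 ∈ U) (h1 : 1 / 2 < g y0) (h2 : g y0 < 1) :
    0 < ∫ y in U, cut (g y) := by
  have hgc := gau_cont hg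
  rw [integral_pos_iff_support_of_nonneg_ae (Eventually.of_forall fun y => cut_nonneg _)
    (cutg_int hg).integrableOn]
  have hO : IsOpen (U ∩ {y | 1 / 2 < g y} ∩ {y | g y < 1}) :=
    (hU.inter (isOpen_lt continuous_const hgc)).inter (isOpen_lt hgc continuous_const)
  have hpos : 0 < volume (U ∩ {y | 1 / 2 < g y} ∩ {y | g y < 1}) :=
    hO.measure_pos volume ⟨y0, ⟨h0, h1⟩, h2⟩
  rw [Measure.restrict_apply' hU.measurableSet]
  refine lt_of_lt_of_le hpos (measure_mono ?_)
  rintro y ⟨⟨h3, h4⟩, h5⟩
  exact ⟨(cut_pos h4 h5).ne', h3⟩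

theorem fderiv_det_meas (F : EuclideanSpace ℝ (Fin (n + 1)) → EuclideanSpace ℝ (Fin (n + 1))) :
    Measurable fun x => (fderiv ℝ F x).det :=
  (ContinuousLinearMap.continuous_det).measurable.comp (measurable_fderiv ℝ F)

theorem D_int (h : AD g f A B C Q w L c β S) (t : ℝ) (z : ℂ) :
    Integrable (fun x => ((cut (w x) : ℝ) : ℂ) * cdet A B C t z x)
      ((volume : Measure (EuclideanSpace ℝ (Fin (n + 1)))).restrict (TT w S)) := by
  have := TT_fin h
  obtain ⟨K, hK0, hK⟩ := cdet_bound h.hAL h.hBL h.hCL t z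
  refine Integrable.of_bound (C := K) ?_ (Eventually.of_forall fun x => ?_)
  · refine AEStronglyMeasurable.mul ?_ (cdet_meas A B C t z).aestronglyMeasurable
    exact (Complex.measurable_ofReal.comp
      (cut_cont.measurable.comp h.hwc.measurable)).aestronglyMeasurable
  · rw [norm_mul, Complex.norm_real, Real.norm_of_nonneg (cut_nonneg _)]
    calc cut (w x) * ‖cdet A B C t z x‖ ≤ 1 * K := by
          have := hK x
          have := cut_le (r := w x)
          have := cut_nonneg (w x)
          gcongr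
      _ = K := one_mul K

theorem D_int_real (h : AD g f A B C Q w L c β S) (t r : ℝ) :
    Integrable (fun x => cut (w x) * (fderiv ℝ (GG A B C t r) x).det)
      ((volume : Measure (EuclideanSpace ℝ (Fin (n + 1)))).restrict (TT w S)) := by
  have h1 := (D_int h t (r : ℂ)).re
  refine h1.congr ?_
  filter_upwards [ae_restrict_of_ae (s := TT w S) (cdet_real h.hAL h.hBL h.hCL t r)] with x hx
  rw [hx]
  have h3 : GG A B C t r = fun y => r • A y + (r * t) • B y + C y := rfl
  rw [h3]
  simp

/-- bounds on the bounded region -/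
theorem lip_bound {F : EuclideanSpace ℝ (Fin (n + 1)) → EuclideanSpace ℝ (Fin (n + 1))}
    {M : ℝ≥0} (h : AD g f A B C Q w L c β S) (hF : LipschitzWith M F) (hF0 : F 0 = 0)
    (x : EuclideanSpace ℝ (Fin (n + 1))) (hx : x ∈ TT w S) : ‖F x‖ ≤ M * (1 / c) := by
  have h1 := hF.dist_le_mul x 0
  rw [hF0, dist_zero_right, dist_zero_right] at h1
  have h2 := TT_sub h hx
  rw [mem_closedBall_zero_iff] at h2
  exact h1.trans (by gcongr)

/-- (B1): real common zeros -/
theorem real_zero (h : AD g f A B C Q w L c β S) (t r : ℝ)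
    (hmom : ∀ ψ : MvPolynomial (Fin (n + 1)) ℝ,
      ∫ x in S, MvPolynomial.eval (fun i => (GG A B C t r x) i) ψ *
          (cut (w x) * (fderiv ℝ (GG A B C t r) x).det)
      = ∫ y, MvPolynomial.eval (fun i => y i) ψ * cut (g y)) : f r (r * t) = 1 := by
  by_contra hne
  obtain ⟨M, hM⟩ := GG_lip h t r
  obtain ⟨cg, hcg, hgl⟩ := gau_lower h.hg
  have hgc := gau_cont h.hg
  -- a unit direction for points with prescribed gauge
  obtain ⟨y1, hy1⟩ : ∃ y1 : EuclideanSpace ℝ (Fin (n + 1)), g y1 = 1 := by
    set e0 : EuclideanSpace ℝ (Fin (n + 1)) := EuclideanSpace.single 0 1 with he0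
    have he : e0 ≠ 0 := by
      intro h0
      have : e0 0 = 0 := by rw [h0]; rfl
      simp [he0] at this
    have hp := h.hg.pos e0 he
    refine ⟨(g e0)⁻¹ • e0, ?_⟩
    rw [h.hg.hom _ _ (by positivity)]
    field_simp
  have hray : ∀ s : ℝ, 0 ≤ s → g (s • y1) = s := by
    intro s hs
    rw [h.hg.hom _ _ hs, hy1, mul_one]
  have hGG0 : GG A B C t r 0 = 0 := by simp [GG, h.hA0, h.hB0, h.hC0]
  -- the missed open set
  obtain ⟨U, hU, y0, hy0, hg1, hg2, hUm⟩ : ∃ U : Set (EuclideanSpace ℝ (Fin (n + 1))), IsOpen U ∧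
      ∃ y0 ∈ U, 1 / 2 < g y0 ∧ g y0 < 1 ∧ ∀ x, GG A B C t r x ∈ U → cut (w x) = 0 := by
    rcases lt_or_gt_of_ne hne with hlt | hgt
    · -- inside
      set ρ : ℝ := f r (r * t) + (1 - f r (r * t)) * β with hρ
      have hβ := h.hβ
      have hρ1 : ρ < 1 := by rw [hρ]; nlinarith
      set m : ℝ := max (1 / 2) ρ with hm
      have hm1 : m < 1 := max_lt (by norm_num) hρ1
      refine ⟨{y | m < g y}, isOpen_lt continuous_const hgc, ((m + 1) / 2) • y1, ?_, ?_, ?_, ?_⟩
      · show m < g _
        rw [hray _ (by have := le_max_left (1 / 2) ρ; linarith)]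
        linarith
      · rw [hray _ (by have := le_max_left (1 / 2) ρ; linarith)]
        have := le_max_left (1 / 2) ρ
        linarith
      · rw [hray _ (by have := le_max_left (1 / 2) ρ; linarith)]
        linarith
      · intro x hx
        have hx' : m < g (GG A B C t r x) := hx
        have h1 : g (GG A B C t r x) ≤ w x * ρ := h.hup x r (r * t) hlt.le
        have h2 : ρ ≤ m := le_max_right _ _
        have h3 : 1 / 2 ≤ m := le_max_left _ _
        have h4 := h.hw0 x
        refine cut_eq_zero (Or.inr ?_)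
        by_contra hcon
        have h5 : w x * ρ ≤ m := by
          calc w x * ρ ≤ w x * m := by gcongr
            _ ≤ 1 * m := by
              have : w x ≤ 1 := by linarith
              gcongr
            _ = m := one_mul m
        linarith
    · -- outside
      set ρ : ℝ := f r (r * t) + (1 - f r (r * t)) * β with hρ
      have hβ := h.hβ
      have hρ1 : 1 < ρ := by rw [hρ]; nlinarith
      set m : ℝ := min 1 (ρ / 2) with hm
      have hm1 : 1 / 2 < m := lt_min (by norm_num) (by linarith)
      refine ⟨{y | g y < m}, isOpen_lt hgc continuous_const, ((m + 1 / 2) / 2) • y1, ?_, ?_, ?_, ?_⟩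
      · show g _ < m
        rw [hray _ (by linarith)]
        linarith
      · rw [hray _ (by linarith)]
        linarith
      · rw [hray _ (by linarith)]
        have := min_le_left 1 (ρ / 2)
        linarith
      · intro x hx
        have hx' : g (GG A B C t r x) < m := hx
        have h1 : w x * ρ ≤ g (GG A B C t r x) := h.hlow x r (r * t) hgt.le
        have h2 : m ≤ ρ / 2 := min_le_right _ _
        refine cut_eq_zero (Or.inl ?_)
        by_contra hcon
        push Not at hcon
        nlinarith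
  refine re_main ((volume : Measure (EuclideanSpace ℝ (Fin (n + 1)))).restrict (TT w S)) (n + 1)
    volume (GG A B C t r) (fun x => cut (w x) * (fderiv ℝ (GG A B C t r) x).det)
    (fun y => cut (g y)) (D_int_real h t r) (cutg_int h.hg) (fun y => cut_nonneg _)
    (max (M * (1 / c)) (1 / cg)) ?_ ?_ U hU ?_ (shell_pos h.hg U hU y0 hy0 hg1 hg2) ?_
  · filter_upwards [ae_restrict_mem (TT_meas h)] with x hx _
    exact (lip_bound h hM hGG0 x hx).trans (le_max_left _ _)
  · intro y hy
    have h1 : g y < 1 := by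
      by_contra hcon
      exact hy (cut_eq_zero (Or.inr (not_lt.1 hcon)))
    have h2 := hgl y
    refine le_trans ?_ (le_max_right _ _)
    rw [le_div_iff₀ hcg]
    linarith
  · refine Eventually.of_forall fun x hx => ?_
    rw [hUm x hx, zero_mul]
  · intro P
    rw [← hmom P]
    refine (int_TT h _ fun x hx => ?_).symm
    rw [hx]
    ring

end

end Pool.Agent.BAN.H68
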