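import Pool.Agent.Helper68_BAN.Stmt2

set_option autoImplicit false

namespace Pool.Agent.BAN

open MeasureTheory Filter Topology Set
open scoped NNReal Polynomial

/-- complexified Jacobian determinant of `z (A + t B) + C` -/
noncomputable def cdet {n : ℕ}
    (A B C : EuclideanSpace ℝ (Fin n) → EuclideanSpace ℝ (Fin n)) (t : ℝ) (z : ℂ)
    (x : EuclideanSpace ℝ (Fin n)) : ℂ :=
  Matrix.det (Matrix.of fun i j : Fin n =>
    z * ((((fderiv ℝ A x (EuclideanSpace.single j 1)) i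
      + t * (fderiv ℝ B x (EuclideanSpace.single j 1)) i : ℝ)) : ℂ)
    + (((fderiv ℝ C x (EuclideanSpace.single j 1)) i : ℝ) : ℂ))

/-- POLY2: the integrals are values of polynomials in `(t, z)`, with constant coefficient (in `z`)
independent of `t`. -/
def POLY2Stmt : Prop :=
  ∀ (n : ℕ) (A B C : EuclideanSpace ℝ (Fin n) → EuclideanSpace ℝ (Fin n))
    (w : EuclideanSpace ℝ (Fin n) → ℝ) (L : ℝ≥0) (c : ℝ)
    (S : Set (EuclideanSpace ℝ (Fin n))), 0 < c →
    LipschitzWith L A → LipschitzWith L B → LipschitzWith L C → Continuous w →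
    MeasurableSet S → (∀ x ∈ S, c * ‖x‖ ≤ w x) →
    ∀ ψ : MvPolynomial (Fin n) ℝ, ∃ Δ : ℝ[X][X],
      (∃ a : ℝ, Δ.coeff 0 = Polynomial.C a) ∧
      ∀ (t : ℝ) (z : ℂ),
        ((Δ.map (Polynomial.evalRingHom t)).map (algebraMap ℝ ℂ)).eval z
          = ∫ x in S, MvPolynomial.aeval
              (fun i => z * (((A x) i + t * (B x) i : ℝ) : ℂ) + (((C x) i : ℝ) : ℂ)) ψ
            * ((cut (w x) : ℝ) : ℂ) * cdet A B C t z x

end Pool.Agent.BAN
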